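import Pool.Agent.Y770.EP.Mom

/-!
# One dyadic block
-/

set_option autoImplicit false

open Finset Filter

namespace Pool.Agent.Y770.EP

/-- the primes in `(y, x]` -/
def PR (y x : ℕ) : Finset ℕ := (Ioc y x).filter Nat.Prime

lemma mem_PR {y x p : ℕ} : p ∈ PR y x ↔ (y < p ∧ p ≤ x) ∧ p.Prime := by
  unfold PR
  rw [mem_filter, mem_Ioc]

/-- periodic modulo `p` with mean value zero and bounded by `M`, for all primes `p` -/
structure Sys (M : ℝ) (g : ℕ → ℤ → ℂ) : Prop where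
  per : ∀ p : ℕ, p.Prime → Function.Periodic (g p) (p : ℤ)
  mean : ∀ p : ℕ, p.Prime → ∑ j ∈ range p, g p j = 0
  le : ∀ p : ℕ, p.Prime → ∀ n, ‖g p n‖ ≤ M

lemma floor_half {x : ℝ} (hx : 1 ≤ x) : x / 2 ≤ (⌊x⌋₊ : ℝ) := by
  have h1 : 1 ≤ ⌊x⌋₊ := (Nat.one_le_floor_iff x).2 hx
  have h1' : (1 : ℝ) ≤ ⌊x⌋₊ := by exact_mod_cast h1
  have h2 := Nat.lt_floor_add_one x
  by_cases h : x ≤ 2
  · linarith
  · push Not at h; linarith

/-- the numbers of the exceptions for one block -/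
theorem block_count {δ M : ℝ} (hδ : 0 < δ) (hδ1 : δ ≤ 1 / 2) (hM : 1 ≤ M) :
    ∃ T0 : ℕ, 2 ≤ T0 ∧ ∀ T : ℕ, T0 ≤ T → ∀ P : ℕ, (Real.log T) ^ (4 / δ) ≤ P →
      (P : ℝ) ≤ (T : ℝ) ^ (1 / 16 : ℝ) → ∀ P' : ℕ, P' ≤ 2 * P → ∀ g : ℕ → ℤ → ℂ, Sys M g →
      ∀ w : ℕ → ℂ, (∀ p, p.Prime → ‖w p‖ ≤ (p : ℝ) ^ (-(1 / 2 + δ))) → ∀ h : ℤ,
      (((range T).filter fun n : ℕ => (P : ℝ) ^ (-(δ / 8)) <
        ‖∑ p ∈ PR P P', g p (h + n) * w p‖).card : ℝ) ≤ 2 * (T : ℝ) ^ (1 - δ / 64) := by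
  have e1 : ∀ᶠ T : ℕ in atTop, (max M 2 : ℝ) ≤ Real.log T :=
    (Real.tendsto_log_atTop.comp tendsto_natCast_atTop_atTop).eventually (eventually_ge_atTop _)
  obtain ⟨T0, hT0⟩ := eventually_atTop.1 (e1.and (eventually_ge_atTop 2))
  have e2 : ∃ T1 : ℕ, T0 ≤ T1 ∧ 2 ≤ T1 ∧ ∀ T : ℕ, T1 ≤ T → 4 * M ^ 2 ≤ (Real.log T) ^ (4 / δ) := by
    have e3 : ∀ᶠ T : ℕ in atTop, 4 * M ^ 2 ≤ (Real.log T) ^ (4 / δ) := by
      have h1 : Tendsto (fun T : ℕ => (Real.log T) ^ (4 / δ)) atTop atTop :=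
        (tendsto_rpow_atTop (by positivity)).comp
          (Real.tendsto_log_atTop.comp tendsto_natCast_atTop_atTop)
      exact h1.eventually (eventually_ge_atTop _)
    obtain ⟨T2, hT2⟩ := eventually_atTop.1 e3
    exact ⟨max T0 (max T2 2), le_max_left _ _, (le_max_right _ _).trans' (le_max_right _ _),
      fun T hT => hT2 T (((le_max_left _ _).trans (le_max_right _ _)).trans hT)⟩
  obtain ⟨T1, hT01, hT12, hT1⟩ := e2
  refine ⟨T1, hT12, fun T hT P hP1 hP2 P' hP' g hg w hw h => ?_⟩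
  obtain ⟨hL, hT2⟩ := hT0 T (hT01.trans hT)
  have hPM := hT1 T hT
  set L := Real.log T with hLdef
  have hLM : M ≤ L := (le_max_left _ _).trans hL
  have hL2 : 2 ≤ L := (le_max_right _ _).trans hL
  have hTr : (2 : ℝ) ≤ T := by exact_mod_cast hT2
  have hT0' : (0 : ℝ) < T := by linarith
  have hTexp : (T : ℝ) = Real.exp L := by rw [hLdef, Real.exp_log hT0']
  have hP4 : 4 ≤ (P : ℝ) := by
    have h1 : 4 ≤ 4 * M ^ 2 := by nlinarith
    linarith
  have hP0 : (0 : ℝ) < P := by linarith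
  set l := Real.log P with hl
  have hl1 : 1 ≤ l := by
    rw [hl, Real.le_log_iff_exp_le hP0]
    have := Real.exp_one_lt_d9
    linarith
  have hl0 : 0 < l := by linarith
  have hPexp : (P : ℝ) = Real.exp l := by rw [hl, Real.exp_log hP0]
  have hlL : l ≤ L / 16 := by
    rw [hl, Real.log_le_iff_le_exp hP0]
    refine hP2.trans (le_of_eq ?_)
    rw [hTexp, ← Real.exp_mul]
    congr 1
    ring
  set k := ⌊L / (16 * l)⌋₊ with hk
  have hx1 : 1 ≤ L / (16 * l) := by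
    rw [le_div_iff₀ (by positivity)]
    linarith
  have hkhalf := floor_half hx1
  have hkle : (k : ℝ) ≤ L / (16 * l) := Nat.floor_le (by positivity)
  have hk1 : 1 ≤ k := (Nat.one_le_floor_iff _).2 hx1
  have hkl_up : k * l ≤ L / 16 := by
    have h1 := mul_le_mul_of_nonneg_right hkle hl0.le
    refine h1.trans (le_of_eq ?_)
    field_simp
  have hkl_lo : L / 32 ≤ k * l := by
    have h1 := mul_le_mul_of_nonneg_right hkhalf hl0.le
    refine le_trans (le_of_eq ?_) h1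
    field_simp
    norm_num
  have hkL : (k : ℝ) ≤ L := by
    have h1 : (k : ℝ) ≤ k * l := by
      have : (0 : ℝ) ≤ k := Nat.cast_nonneg k
      nlinarith
    linarith
  clear_value k
  clear_value l
  clear_value L
  -- the bound for one function
  obtain ⟨B, hB⟩ : ∃ B : ℝ, B = M * (P : ℝ) ^ (-(1 / 2 + δ)) := ⟨_, rfl⟩
  have hB0 : 0 ≤ B := by rw [hB]; positivity
  obtain ⟨G, hG⟩ : ∃ G : ℕ → ℤ → ℂ, ∀ p n, G p n = g p n * w p := ⟨_, fun _ _ => rfl⟩
  have hPR : ∀ p ∈ PR P P', p.Prime ∧ p ≤ 2 * P := fun p hp => by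
    rw [mem_PR] at hp
    exact ⟨hp.2, hp.1.2.trans hP'⟩
  have hGB : ∀ p ∈ PR P P', ∀ n, ‖G p n‖ ≤ B := by
    intro p hp n
    have hp' := mem_PR.1 hp
    rw [hG, norm_mul, hB]
    refine mul_le_mul (hg.le p hp'.2 n) ((hw p hp'.2).trans ?_) (norm_nonneg _) (by linarith)
    refine Real.rpow_le_rpow_of_nonpos hP0 (by exact_mod_cast hp'.1.1.le) (by linarith)
  have hmom := moment hPR hB0 (g := G) (fun p hp n => by
      rw [hG, hG, hg.per p (mem_PR.1 hp).2 n])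
    (fun p hp => by
      simp_rw [hG]; rw [← Finset.sum_mul, hg.mean p (mem_PR.1 hp).2, zero_mul]) hGB k hk1 h T
  -- the number of the primes
  have hcard : ((PR P P').card : ℝ) ≤ P := by
    have h1 : (PR P P').card ≤ P := by
      refine (card_filter_le _ _).trans ?_
      rw [Nat.card_Ioc]
      omega
    exact_mod_cast h1
  have hcard0 : (0 : ℝ) ≤ ((PR P P').card : ℝ) := Nat.cast_nonneg _
  generalize ((PR P P').card : ℝ) = m at hmom hcard hcard0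
  have hBpow : B ^ (2 * k) = M ^ (2 * k) * Real.exp (-((1 + 2 * δ) * (k * l))) := by
    rw [hB, mul_pow, hPexp, ← Real.exp_mul, ← Real.exp_nat_mul]
    congr 2
    push_cast
    ring
  have hPk : (P : ℝ) ^ k = Real.exp (k * l) := by
    rw [hPexp, ← Real.exp_nat_mul]
  have hM2 : M ^ (2 * k) * (k : ℝ) ^ (2 * k) ≤ Real.exp (δ * (k * l)) := by
    have h1 : M ^ 2 * (k : ℝ) ^ 2 ≤ Real.exp (δ * l) := by
      have h2 : L ^ (4 : ℝ) ≤ Real.exp (δ * l) := by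
        have h3 : (L ^ (4 / δ)) ^ δ ≤ (P : ℝ) ^ δ := Real.rpow_le_rpow (by positivity) hP1 hδ.le
        rw [← Real.rpow_mul (by linarith), div_mul_cancel₀ _ hδ.ne', hPexp, ← Real.exp_mul] at h3
        rwa [mul_comm δ l]
      refine le_trans ?_ h2
      have h3 : L ^ (4 : ℝ) = L ^ 2 * L ^ 2 := by
        rw [show (4 : ℝ) = ((4 : ℕ) : ℝ) by norm_num, Real.rpow_natCast]; ring
      rw [h3]
      gcongr
    calc M ^ (2 * k) * (k : ℝ) ^ (2 * k) = (M ^ 2 * (k : ℝ) ^ 2) ^ k := by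
          rw [mul_pow, ← pow_mul, ← pow_mul]
      _ ≤ (Real.exp (δ * l)) ^ k := pow_le_pow_left₀ (by positivity) h1 k
      _ = Real.exp (δ * (k * l)) := by
          rw [← Real.exp_nat_mul]; congr 1; ring
  have hfirst : (T : ℝ) * (m ^ k * (k : ℝ) ^ (2 * k)) * B ^ (2 * k) ≤
      Real.exp (L - δ * (L / 32)) := by
    calc (T : ℝ) * (m ^ k * (k : ℝ) ^ (2 * k)) * B ^ (2 * k)
        ≤ T * ((P : ℝ) ^ k * (k : ℝ) ^ (2 * k)) * B ^ (2 * k) := by gcongr
      _ = Real.exp L * Real.exp (k * l) * (M ^ (2 * k) * (k : ℝ) ^ (2 * k)) *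
          Real.exp (-((1 + 2 * δ) * (k * l))) := by rw [hPk, hBpow, ← hTexp]; ring
      _ ≤ Real.exp L * Real.exp (k * l) * Real.exp (δ * (k * l)) *
          Real.exp (-((1 + 2 * δ) * (k * l))) := by gcongr
      _ = Real.exp (L - δ * (k * l)) := by
          rw [← Real.exp_add, ← Real.exp_add, ← Real.exp_add]; congr 1; ring
      _ ≤ Real.exp (L - δ * (L / 32)) := by
          refine Real.exp_le_exp.2 ?_
          have := mul_le_mul_of_nonneg_left hkl_lo hδ.le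
          linarith
  have hsecond : m ^ (2 * k) * (((2 * P : ℕ) : ℝ) ^ (2 * k) * B ^ (2 * k)) ≤
      Real.exp (L / 4) := by
    have h1 : ((P : ℝ) * (2 * P) * B) ^ 2 ≤ Real.exp (4 * l) := by
      have h2 : (P : ℝ) ^ (-(1 / 2 + δ)) ≤ (P : ℝ) ^ (-(1 / 2) : ℝ) :=
        Real.rpow_le_rpow_of_exponent_le (by linarith) (by linarith)
      have h3 : ((P : ℝ) ^ (-(1 / 2) : ℝ)) ^ 2 * P = 1 := by
        rw [← Real.rpow_natCast, ← Real.rpow_mul hP0.le]
        norm_num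
        rw [Real.rpow_neg_one, inv_mul_cancel₀ hP0.ne']
      calc ((P : ℝ) * (2 * P) * B) ^ 2 ≤ (P * (2 * P) * (M * (P : ℝ) ^ (-(1 / 2) : ℝ))) ^ 2 := by
            rw [hB]; gcongr
        _ = 4 * M ^ 2 * P ^ 3 * (((P : ℝ) ^ (-(1 / 2) : ℝ)) ^ 2 * P) := by ring
        _ = 4 * M ^ 2 * P ^ 3 := by rw [h3, mul_one]
        _ ≤ P * P ^ 3 := by
            have : 4 * M ^ 2 ≤ P := hPM.trans hP1
            gcongr
        _ = Real.exp (4 * l) := by
            rw [hPexp]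
            rw [← Real.exp_nat_mul, ← Real.exp_add]; congr 1; push_cast; ring
    calc m ^ (2 * k) * (((2 * P : ℕ) : ℝ) ^ (2 * k) * B ^ (2 * k))
        ≤ (P : ℝ) ^ (2 * k) * (((2 * P : ℕ) : ℝ) ^ (2 * k) * B ^ (2 * k)) := by gcongr
      _ = (((P : ℝ) * (2 * P) * B) ^ 2) ^ k := by
          rw [← pow_mul, mul_pow, mul_pow]; push_cast; ring
      _ ≤ (Real.exp (4 * l)) ^ k := pow_le_pow_left₀ (by positivity) h1 k
      _ = Real.exp (4 * (k * l)) := by rw [← Real.exp_nat_mul]; congr 1; ring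
      _ ≤ Real.exp (L / 4) := Real.exp_le_exp.2 (by linarith)
  have htot : ∑ n ∈ range T, ‖∑ p ∈ PR P P', G p (h + n)‖ ^ (2 * k) ≤
      2 * Real.exp (L - δ * (L / 32)) := by
    have h1 : Real.exp (L / 4) ≤ Real.exp (L - δ * (L / 32)) := by
      refine Real.exp_le_exp.2 ?_
      nlinarith
    have h2 : (0 : ℝ) ≤ (((2 * P : ℕ) : ℝ) ^ (2 * k) * B ^ (2 * k)) := by positivity
    linarith
  -- Markov
  set E := (range T).filter fun n : ℕ => (P : ℝ) ^ (-(δ / 8)) <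
        ‖∑ p ∈ PR P P', g p (h + n) * w p‖ with hE
  have hmk : (E.card : ℝ) * Real.exp (-(δ * (L / 64))) ≤ 2 * Real.exp (L - δ * (L / 32)) := by
    refine le_trans ?_ htot
    refine le_trans ?_ (Finset.sum_le_sum_of_subset_of_nonneg (filter_subset _ _)
      fun n _ _ => by positivity : ∑ n ∈ E, ‖∑ p ∈ PR P P', G p (h + n)‖ ^ (2 * k) ≤ _)
    rw [← nsmul_eq_mul]
    refine Finset.card_nsmul_le_sum _ _ _ fun n hn => ?_
    have h1 : (P : ℝ) ^ (-(δ / 8)) < ‖∑ p ∈ PR P P', G p (h + n)‖ := by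
      simp_rw [hG]
      exact (mem_filter.1 hn).2
    have h2 : Real.exp (-(δ * (L / 64))) ≤ ((P : ℝ) ^ (-(δ / 8))) ^ (2 * k) := by
      rw [hPexp, ← Real.exp_mul, ← Real.exp_nat_mul]
      refine Real.exp_le_exp.2 ?_
      push_cast
      have h3 := mul_le_mul_of_nonneg_left hkl_up hδ.le
      have h4 : 2 * (k : ℝ) * (l * (-(δ / 8))) = -(δ * (k * l) / 4) := by ring
      rw [h4]
      linarith
    exact h2.trans (pow_le_pow_left₀ (by positivity) h1.le _)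
  have h3 : (T : ℝ) ^ (1 - δ / 64) = Real.exp (L - δ * (L / 32)) * Real.exp (δ * (L / 64)) := by
    rw [hTexp, ← Real.exp_mul, ← Real.exp_add]
    congr 1
    ring
  rw [h3]
  have h4 : (E.card : ℝ) = E.card * Real.exp (-(δ * (L / 64))) * Real.exp (δ * (L / 64)) := by
    rw [mul_assoc, ← Real.exp_add]
    simp
  rw [h4, ← mul_assoc]
  exact mul_le_mul_of_nonneg_right hmk (Real.exp_pos _).le

end Pool.Agent.Y770.EP
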