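import Pool.Agent.Y770.EP.Union2

/-!
# Almost all members of a family: sums over primes in a half-plane
-/

set_option autoImplicit false

open Finset Filter

namespace Pool.Agent.Y770.EP

lemma ev_rpow {a C : ℝ} (ha : 0 < a) : ∀ᶠ T : ℕ in atTop, C ≤ (T : ℝ) ^ a :=
  ((tendsto_rpow_atTop ha).comp tendsto_natCast_atTop_atTop).eventually (eventually_ge_atTop _)

lemma ev_log {a C : ℝ} (ha : 0 < a) : ∀ᶠ T : ℕ in atTop, C ≤ (Real.log T) ^ a :=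
  ((tendsto_rpow_atTop ha).comp
    (Real.tendsto_log_atTop.comp tendsto_natCast_atTop_atTop)).eventually (eventually_ge_atTop _)

/-- **Almost all members.** -/
theorem almost_all {δ M : ℝ} (hδ : 0 < δ) (hδ1 : δ ≤ 1 / 2) (hM : 1 ≤ M) :
    ∃ T0 : ℕ, 2 ≤ T0 ∧ ∀ T : ℕ, T0 ≤ T → ∀ {ι : Type} (Ψ : Finset ι) (g : ι → ℕ → ℤ → ℂ),
      (∀ i ∈ Ψ, Sys M (g i)) → (Ψ.card : ℝ) ≤ (T : ℝ) ^ (δ / 2000) → ∀ h : ℤ,
      (Nat.card {n : ℕ // n < T ∧ ¬ ∀ i ∈ Ψ, Good δ (δ / 2000) T fun p => g i p (h + n)} : ℝ) ≤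
        (T : ℝ) ^ (1 - δ / 2000) := by
  classical
  obtain ⟨T1, hT12, hblock⟩ := block_count hδ hδ1 hM
  obtain ⟨c, hc⟩ : ∃ c : ℝ, c = δ / 2000 := ⟨_, rfl⟩
  have hc0 : 0 < c := by rw [hc]; positivity
  obtain ⟨r, hr⟩ : ∃ r : ℝ, r = 2 / (1 - (2 : ℝ) ^ (-(δ / 8))) := ⟨_, rfl⟩
  have ev : ∀ᶠ T : ℕ in atTop, 4 * M ≤ (T : ℝ) ^ c ∧ M ≤ (Real.log T) ^ (4 / δ) ∧
      r ≤ (Real.log T) ^ (1 / 4 : ℝ) ∧ 360 ≤ (T : ℝ) ^ (δ / 64 - 16 * c) ∧
      1 ≤ (Real.log T) ^ (1 : ℝ) := by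
    have h1 : 0 < δ / 64 - 16 * c := by rw [hc]; linarith
    filter_upwards [ev_rpow (C := 4 * M) hc0, ev_log (C := M) (show 0 < 4 / δ by positivity),
      ev_log (C := r) (show (0 : ℝ) < 1 / 4 by norm_num), ev_rpow (C := 360) h1,
      ev_log (C := 1) one_pos] with T a1 a2 a3 a4 a5 using ⟨a1, a2, a3, a4, a5⟩
  obtain ⟨T2, hT2⟩ := eventually_atTop.1 ev
  refine ⟨max T1 T2, hT12.trans (le_max_left _ _), fun T hT ι Ψ g hg hΨ h => ?_⟩
  obtain ⟨hXM, hLM, hrL, h360, hL1⟩ := hT2 T ((le_max_right _ _).trans hT)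
  rw [Real.rpow_one] at hL1
  rw [← hc] at hΨ ⊢
  have hTr : (2 : ℝ) ≤ T := by exact_mod_cast hT12.trans ((le_max_left _ _).trans hT)
  have hT0 : (0 : ℝ) < T := by linarith
  obtain ⟨X, hX⟩ : ∃ X : ℝ, X = (T : ℝ) ^ c := ⟨_, rfl⟩
  rw [← hX] at hXM hΨ
  have hX4 : 4 ≤ X := by linarith
  have hX0 : 0 < X := by linarith
  obtain ⟨N, hN⟩ : ∃ N : ℕ, N = ⌊X⌋₊ := ⟨_, rfl⟩
  obtain ⟨m, hm⟩ : ∃ m : ℕ, m = ⌈X ^ 4⌉₊ := ⟨_, rfl⟩
  have hmX : X ^ 4 ≤ m := by rw [hm]; exact Nat.le_ceil _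
  have hm_up : (m : ℝ) ≤ 2 * X ^ 4 := by
    have h1 := (Nat.ceil_lt_add_one (by positivity : 0 ≤ X ^ 4)).le
    rw [← hm] at h1
    have h2 : 1 ≤ X ^ 4 := one_le_pow₀ (by linarith)
    linarith
  have hN_up : (N : ℝ) ≤ X := by rw [hN]; exact Nat.floor_le hX0.le
  obtain ⟨y0, hy0⟩ : ∃ y0 : ℝ, y0 = (Real.log T) ^ (4 / δ) := ⟨_, rfl⟩
  have hy0M : M ≤ y0 := by rw [hy0]; exact hLM
  -- the exceptional sets
  set I := Ψ ×ˢ (range (2 * m + 1) ×ˢ (Icc (-((m : ℤ) ^ 2)) ((m : ℤ) ^ 2) ×ˢ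
    (range (N + 1) ×ˢ range (N + 1)))) with hI
  set Bd : ι × ℕ × ℤ × ℕ × ℕ → Finset ℕ := fun τ =>
    if y0 ≤ τ.2.2.2.1 ∧ τ.2.2.2.2 ≤ 2 * τ.2.2.2.1 then
      (range T).filter fun n : ℕ => (τ.2.2.2.1 : ℝ) ^ (-(δ / 8)) <
        ‖∑ p ∈ PR τ.2.2.2.1 τ.2.2.2.2, g τ.1 p (h + n) * (p : ℂ) ^ (-(sg δ m τ.2.1 τ.2.2.1))‖
    else ∅ with hBd
  have hBcard : ∀ τ ∈ I, ((Bd τ).card : ℝ) ≤ 2 * (T : ℝ) ^ (1 - δ / 64) := by
    rintro ⟨i, a, b, y, x⟩ hτ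
    simp only [hI, mem_product, mem_range] at hτ
    obtain ⟨hi, _, _, hyN, hxN⟩ := hτ
    simp only [hBd]
    split_ifs with hcond
    · obtain ⟨h1, h2⟩ := hcond
      refine hblock T ((le_max_left _ _).trans hT) y (by rw [← hy0]; exact h1) ?_ x h2 (g i) (hg i hi)
        (fun p => (p : ℂ) ^ (-(sg δ m a b))) (fun p hp => ?_) h
      · have h3 : (y : ℝ) ≤ N := by exact_mod_cast Nat.lt_succ_iff.1 hyN
        refine (h3.trans hN_up).trans ?_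
        rw [hX]
        refine Real.rpow_le_rpow_of_exponent_le (by linarith) ?_
        rw [hc]
        linarith
      · rw [Complex.norm_natCast_cpow_of_pos hp.pos, Complex.neg_re]
        refine Real.rpow_le_rpow_of_exponent_le (by exact_mod_cast hp.one_lt.le) ?_
        have := sg_re (δ := δ) m a b
        linarith
    · simp only [card_empty, Nat.cast_zero]
      positivity
  -- the number of the quintuples
  have hIcard : (I.card : ℝ) ≤ 180 * X ^ 15 := by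
    rw [hI, card_product, card_product, card_product, card_product, card_range, card_range,
      Int.card_Icc]
    have h1 : ((((m : ℤ) ^ 2 + 1 - -((m : ℤ) ^ 2)).toNat : ℕ) : ℝ) = 2 * (m : ℝ) ^ 2 + 1 := by
      have e1 : ((m : ℤ) ^ 2 + 1 - -((m : ℤ) ^ 2)) = ((2 * m ^ 2 + 1 : ℕ) : ℤ) := by push_cast; ring
      rw [e1, Int.toNat_natCast]
      push_cast
      ring
    push_cast
    rw [h1]
    have h2 : (2 * (m : ℝ) + 1) ≤ 5 * X ^ 4 := by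
      have : 1 ≤ X ^ 4 := one_le_pow₀ (by linarith)
      linarith
    have h3 : (2 * (m : ℝ) ^ 2 + 1) ≤ 9 * X ^ 8 := by
      have e1 : 1 ≤ X ^ 8 := one_le_pow₀ (by linarith)
      have e2 : (m : ℝ) ^ 2 ≤ (2 * X ^ 4) ^ 2 := by gcongr
      have e3 : (2 * X ^ 4) ^ 2 = 4 * X ^ 8 := by ring
      linarith
    have h4 : ((N : ℝ) + 1) ≤ 2 * X := by linarith
    calc (Ψ.card : ℝ) * ((2 * (m : ℝ) + 1) * ((2 * (m : ℝ) ^ 2 + 1) * (((N : ℝ) + 1) * ((N : ℝ) + 1))))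
        ≤ X * (5 * X ^ 4 * (9 * X ^ 8 * (2 * X * (2 * X)))) := by gcongr
      _ = 180 * X ^ 15 := by ring
  -- outside the exceptional sets
  have hsub : {n : ℕ | n < T ∧ ¬ ∀ i ∈ Ψ, Good δ c T fun p => g i p (h + n)} ⊆ (I.biUnion Bd : Set ℕ) := by
    rintro n ⟨hnT, hn⟩
    by_contra hnB
    apply hn
    intro i hi s hs1 hs2 y x hy hx
    rw [← hX] at hs2 hx
    rw [← hy0] at hy
    have hfM : ∀ p : ℕ, p.Prime → ‖g i p (h + n)‖ ≤ M := fun p hp => (hg i hi).le p hp _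
    have hb : ∀ y x : ℕ, y0 ≤ y → (x : ℝ) ≤ X → x ≤ 2 * y →
        ‖SP (fun p => g i p (h + n)) s y x‖ ≤ 2 * (y : ℝ) ^ (-(δ / 8)) := by
      intro y x hy hx hxy
      by_cases hyx : x ≤ y
      · unfold SP
        rw [PR_empty hyx, Finset.sum_empty, norm_zero]
        positivity
      push Not at hyx
      have hxN : x ≤ N := by rw [hN]; exact Nat.le_floor hx
      refine block_of_grid hδ hδ1 hM hXM hmX hfM (hy0M.trans hy) hx hxy (fun a ha b hb => ?_) hs1 hs2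
      by_contra hcon
      push Not at hcon
      apply hnB
      rw [Finset.mem_coe, mem_biUnion]
      refine ⟨(i, a, b, y, x), ?_, ?_⟩
      · simp only [hI, mem_product]
        exact ⟨hi, ha, hb, mem_range.2 (by omega), mem_range.2 (by omega)⟩
      · simp only [hBd]
        rw [if_pos ⟨hy, hxy⟩, mem_filter]
        exact ⟨mem_range.2 hnT, hcon⟩
    have h5 := dyadic' (κ := δ / 8) (by positivity) (by linarith : 0 < y0) hb hy hx
    rw [← hr] at h5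
    refine h5.trans ?_
    have hypos : (0 : ℝ) < y := by linarith
    have h6 : r ≤ (y : ℝ) ^ (δ / 16) := by
      refine hrL.trans ?_
      have h7 : (y0 : ℝ) ^ (δ / 16) ≤ (y : ℝ) ^ (δ / 16) :=
        Real.rpow_le_rpow (by linarith) hy (by positivity)
      refine le_trans (le_of_eq ?_) h7
      rw [hy0, ← Real.rpow_mul (by linarith)]
      congr 1
      field_simp
      norm_num
    calc r * (y : ℝ) ^ (-(δ / 8)) ≤ (y : ℝ) ^ (δ / 16) * (y : ℝ) ^ (-(δ / 8)) := by gcongr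
      _ = (y : ℝ) ^ (-(δ / 16)) := by rw [← Real.rpow_add hypos]; congr 1; ring
  have hcount : (Nat.card {n : ℕ // n < T ∧ ¬ ∀ i ∈ Ψ, Good δ c T fun p => g i p (h + n)} : ℝ) ≤
      ((I.biUnion Bd).card : ℝ) := by
    have h1 : Nat.card {n : ℕ // n < T ∧ ¬ ∀ i ∈ Ψ, Good δ c T fun p => g i p (h + n)} =
        Set.ncard {n : ℕ | n < T ∧ ¬ ∀ i ∈ Ψ, Good δ c T fun p => g i p (h + n)} := rfl
    rw [h1]
    have h2 := Set.ncard_le_ncard hsub (Finset.finite_toSet _)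
    rw [Set.ncard_coe_finset] at h2
    exact_mod_cast h2
  refine hcount.trans ?_
  have h7 : ((I.biUnion Bd).card : ℝ) ≤ ∑ τ ∈ I, ((Bd τ).card : ℝ) := by
    exact_mod_cast card_biUnion_le
  refine h7.trans ?_
  refine (Finset.sum_le_card_nsmul _ _ _ hBcard).trans ?_
  rw [nsmul_eq_mul]
  have hX15 : X ^ 15 = (T : ℝ) ^ (15 * c) := by
    rw [hX, ← Real.rpow_natCast, ← Real.rpow_mul hT0.le]
    congr 1
    push_cast
    ring
  calc (I.card : ℝ) * (2 * (T : ℝ) ^ (1 - δ / 64)) ≤ (180 * X ^ 15) * (2 * (T : ℝ) ^ (1 - δ / 64)) := by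
        gcongr
    _ = 360 * ((T : ℝ) ^ (15 * c) * (T : ℝ) ^ (1 - δ / 64)) := by rw [hX15]; ring
    _ ≤ (T : ℝ) ^ (δ / 64 - 16 * c) * ((T : ℝ) ^ (15 * c) * (T : ℝ) ^ (1 - δ / 64)) := by gcongr
    _ = (T : ℝ) ^ (1 - c) := by
        rw [← Real.rpow_add hT0, ← Real.rpow_add hT0]
        congr 1
        ring

end Pool.Agent.Y770.EP
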