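import Pool.Agent.Y770.EP.Loc
import Pool.Agent.Y770.EP.Count
import Pool.Agent.H921R2.TatePole.Base

/-!
# The Euler factors and their logarithms
-/

set_option autoImplicit false

open Finset NumberField IsDedekindDomain
open Pool.Agent.H921R2.TatePole (nm two_le_nm below deg nm_eq nm_summable fiber_card_le
  summable_primes_rpow)
open scoped ComplexConjugate

namespace Pool.Agent.Y770.EP

section roots

/-- the root of absolute value one -/
noncomputable def uu (t : ℝ) : ℂ := ⟨t / 2, √(1 - t ^ 2 / 4)⟩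

variable {t : ℝ}

lemma uu_mul (ht : |t| ≤ 2) : uu t * conj (uu t) = 1 := by
  have h1 : 0 ≤ 1 - t ^ 2 / 4 := by
    have := sq_le_sq' (by linarith [(abs_le.1 ht).1]) (abs_le.1 ht).2
    linarith
  rw [Complex.mul_conj, Complex.normSq_apply]
  unfold uu
  dsimp only
  rw [Real.mul_self_sqrt h1]
  have : t / 2 * (t / 2) + (1 - t ^ 2 / 4) = 1 := by ring
  rw [this, Complex.ofReal_one]

lemma uu_add : uu t + conj (uu t) = t := by
  unfold uu
  apply Complex.ext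
  · simp
  · simp

lemma uu_norm (ht : |t| ≤ 2) : ‖uu t‖ = 1 := by
  have h1 := congrArg norm (uu_mul ht)
  rw [norm_mul, RCLike.norm_conj, norm_one] at h1
  nlinarith [norm_nonneg (uu t)]

/-- the logarithm of `(1 - t z + z²)⁻¹` -/
noncomputable def ell (t : ℝ) (z : ℂ) : ℂ :=
  -Complex.log (1 - uu t * z) - Complex.log (1 - conj (uu t) * z)

lemma exp_ell (ht : |t| ≤ 2) {z : ℂ} (hz : ‖z‖ < 1) :
    Complex.exp (ell t z) = (1 - t * z + z ^ 2)⁻¹ := by
  have h1 : ∀ w : ℂ, ‖w‖ < 1 → 1 - w ≠ 0 := by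
    intro w hw h
    have : w = 1 := (sub_eq_zero.1 h).symm
    rw [this, norm_one] at hw
    exact lt_irrefl _ hw
  have h2 : ‖uu t * z‖ < 1 := by rw [norm_mul, uu_norm ht, one_mul]; exact hz
  have h3 : ‖conj (uu t) * z‖ < 1 := by
    rw [norm_mul, RCLike.norm_conj, uu_norm ht, one_mul]; exact hz
  unfold ell
  rw [sub_eq_add_neg, Complex.exp_add, Complex.exp_neg, Complex.exp_neg, Complex.exp_log (h1 _ h2),
    Complex.exp_log (h1 _ h3), ← mul_inv]
  congr 1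
  have h4 := uu_mul ht
  have h5 := uu_add (t := t)
  linear_combination (z ^ 2) * h4 - z * h5

lemma fac_ne (ht : |t| ≤ 2) {z : ℂ} (hz : ‖z‖ < 1) : (1 - t * z + z ^ 2)⁻¹ ≠ 0 := by
  rw [← exp_ell ht hz]
  exact Complex.exp_ne_zero _

lemma log_sub {w : ℂ} (hw : ‖w‖ ≤ 1 / 2) : ‖-Complex.log (1 - w) - w‖ ≤ ‖w‖ ^ 2 := by
  have h1 : ‖-w‖ < 1 := by rw [norm_neg]; linarith
  have h2 := Complex.norm_log_one_add_sub_self_le h1
  rw [norm_neg] at h2
  have h3 : ‖w‖ ^ 2 * (1 - ‖w‖)⁻¹ / 2 ≤ ‖w‖ ^ 2 := by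
    have h4 : (1 - ‖w‖)⁻¹ ≤ 2 := by
      rw [inv_le_comm₀ (by linarith) (by norm_num)]
      linarith
    nlinarith [sq_nonneg ‖w‖, norm_nonneg w]
  have h5 : -Complex.log (1 - w) - w = -(Complex.log (1 + -w) - -w) := by
    rw [← sub_eq_add_neg]; ring
  rw [h5, norm_neg]
  linarith

lemma ell_sub (ht : |t| ≤ 2) {z : ℂ} (hz : ‖z‖ ≤ 1 / 2) : ‖ell t z - t * z‖ ≤ 2 * ‖z‖ ^ 2 := by
  have h2 : ‖uu t * z‖ = ‖z‖ := by rw [norm_mul, uu_norm ht, one_mul]
  have h3 : ‖conj (uu t) * z‖ = ‖z‖ := by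
    rw [norm_mul, RCLike.norm_conj, uu_norm ht, one_mul]
  have h4 := log_sub (by rw [h2]; exact hz : ‖uu t * z‖ ≤ 1 / 2)
  have h5 := log_sub (by rw [h3]; exact hz : ‖conj (uu t) * z‖ ≤ 1 / 2)
  rw [h2] at h4
  rw [h3] at h5
  have h6 : ell t z - t * z = (-Complex.log (1 - uu t * z) - uu t * z) +
      (-Complex.log (1 - conj (uu t) * z) - conj (uu t) * z) := by
    unfold ell
    have := uu_add (t := t)
    linear_combination (z) * this
  rw [h6]
  refine (norm_add_le _ _).trans ?_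
  linarith

lemma ell_le (ht : |t| ≤ 2) {z : ℂ} (hz : ‖z‖ ≤ 1 / 2) : ‖ell t z‖ ≤ 3 * ‖z‖ := by
  have h1 := ell_sub ht hz
  have h2 : ‖(t : ℂ) * z‖ ≤ 2 * ‖z‖ := by
    rw [norm_mul, Complex.norm_real]
    exact mul_le_mul_of_nonneg_right ht (norm_nonneg _)
  calc ‖ell t z‖ = ‖(ell t z - t * z) + t * z‖ := by rw [sub_add_cancel]
    _ ≤ ‖ell t z - t * z‖ + ‖(t : ℂ) * z‖ := norm_add_le _ _
    _ ≤ 3 * ‖z‖ := by nlinarith [norm_nonneg z]

end roots

section nf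
variable {K : Type} [Field K] [NumberField K] {N : ℕ}

/-- the variable of the Euler factor -/
noncomputable def zz (γ : HeightOneSpectrum (𝓞 K) → Fin N → ℂ) (s : ℂ) (v : HeightOneSpectrum (𝓞 K))
    (j : Fin N) : ℂ := γ v j * (nm v : ℂ) ^ (1 / 2 - s)

/-- the Euler factor at `v` -/
noncomputable def fac (a b : 𝓞 K) (γ : HeightOneSpectrum (𝓞 K) → Fin N → ℂ) (s : ℂ)
    (v : HeightOneSpectrum (𝓞 K)) : ℂ :=
  ∏ j, (1 - ((nm v : ℂ) - pts a b v) * γ v j * (nm v : ℂ) ^ (-s) +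
    γ v j ^ 2 * (nm v : ℂ) ^ (1 - 2 * s))⁻¹

/-- the logarithm of the Euler factor at `v` -/
noncomputable def EL (a b : 𝓞 K) (γ : HeightOneSpectrum (𝓞 K) → Fin N → ℂ) (s : ℂ)
    (v : HeightOneSpectrum (𝓞 K)) : ℂ := ∑ j, ell (tv a b v) (zz γ s v j)

variable {a b : 𝓞 K} {γ : HeightOneSpectrum (𝓞 K) → Fin N → ℂ} {s : ℂ} {v : HeightOneSpectrum (𝓞 K)}

lemma nm_pos' (v : HeightOneSpectrum (𝓞 K)) : (0 : ℝ) < nm v := by
  have := two_le_nm v
  exact_mod_cast (by omega : 0 < nm v)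

lemma zz_norm (hγ : ∀ v j, ‖γ v j‖ ≤ 1) (j : Fin N) : ‖zz γ s v j‖ ≤ (nm v : ℝ) ^ (1 / 2 - s.re) := by
  unfold zz
  rw [norm_mul, Complex.norm_natCast_cpow_of_pos (by have := two_le_nm v; omega)]
  have : (1 / 2 - s).re = 1 / 2 - s.re := by simp
  rw [this]
  exact mul_le_of_le_one_left (by positivity) (hγ v j)

lemma fac_term (j : Fin N) : (1 - ((nm v : ℂ) - pts a b v) * γ v j * (nm v : ℂ) ^ (-s) +
    γ v j ^ 2 * (nm v : ℂ) ^ (1 - 2 * s))⁻¹ =
    (1 - (tv a b v : ℂ) * zz γ s v j + zz γ s v j ^ 2)⁻¹ := by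
  have hq0 := nm_pos' v
  have hq : (nm v : ℂ) ≠ 0 := by exact_mod_cast hq0.ne'
  have h1 : (tv a b v : ℂ) = ((nm v : ℂ) - pts a b v) * (nm v : ℂ) ^ (-(1 / 2) : ℂ) := by
    unfold tv
    push_cast
    rw [div_eq_mul_inv]
    congr 1
    rw [Complex.cpow_neg]
    congr 1
    rw [Real.sqrt_eq_rpow, Complex.ofReal_cpow hq0.le]
    push_cast
    rfl
  have h2 : (nm v : ℂ) ^ (-(1 / 2) : ℂ) * (nm v : ℂ) ^ (1 / 2 - s) = (nm v : ℂ) ^ (-s) := by
    rw [← Complex.cpow_add _ _ hq]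
    congr 1
    ring
  have h3 : ((nm v : ℂ) ^ (1 / 2 - s)) ^ 2 = (nm v : ℂ) ^ (1 - 2 * s) := by
    rw [sq, ← Complex.cpow_add _ _ hq]
    congr 1
    ring
  congr 1
  unfold zz
  rw [h1, mul_pow, h3, ← h2]
  ring

lemma fac_eq (ht : |tv a b v| ≤ 2) (hγ : ∀ v j, ‖γ v j‖ ≤ 1)
    (hz : (nm v : ℝ) ^ (1 / 2 - s.re) < 1) : fac a b γ s v = Complex.exp (EL a b γ s v) := by
  unfold fac EL
  rw [Complex.exp_sum]
  refine Finset.prod_congr rfl fun j _ => ?_
  rw [fac_term, exp_ell ht ((zz_norm hγ j).trans_lt hz)]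

lemma EL_sub (ht : |tv a b v| ≤ 2) (hγ : ∀ v j, ‖γ v j‖ ≤ 1)
    (hz : (nm v : ℝ) ^ (1 / 2 - s.re) ≤ 1 / 2) :
    ‖EL a b γ s v - (tv a b v : ℂ) * (∑ j, γ v j) * (nm v : ℂ) ^ (-(s - 1 / 2))‖ ≤
      2 * N * (nm v : ℝ) ^ (1 - 2 * s.re) := by
  have h1 : (tv a b v : ℂ) * (∑ j, γ v j) * (nm v : ℂ) ^ (-(s - 1 / 2)) =
      ∑ j, (tv a b v : ℂ) * zz γ s v j := by
    unfold zz
    rw [mul_assoc, Finset.sum_mul, Finset.mul_sum]
    refine Finset.sum_congr rfl fun j _ => ?_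
    rw [neg_sub]
  unfold EL
  rw [h1, ← Finset.sum_sub_distrib]
  refine (norm_sum_le _ _).trans ?_
  refine (Finset.sum_le_card_nsmul _ _ (2 * (nm v : ℝ) ^ (1 - 2 * s.re)) fun j _ => ?_).trans ?_
  · refine (ell_sub ht ((zz_norm hγ j).trans hz)).trans ?_
    have h2 := pow_le_pow_left₀ (norm_nonneg _) (zz_norm (s := s) (v := v) hγ j) 2
    have h3 : ((nm v : ℝ) ^ (1 / 2 - s.re)) ^ 2 = (nm v : ℝ) ^ (1 - 2 * s.re) := by
      rw [sq, ← Real.rpow_add (nm_pos' v)]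
      congr 1
      ring
    rw [h3] at h2
    linarith
  · rw [card_univ, Fintype.card_fin, nsmul_eq_mul]
    exact le_of_eq (by ring)

lemma EL_le (ht : |tv a b v| ≤ 2) (hγ : ∀ v j, ‖γ v j‖ ≤ 1)
    (hz : (nm v : ℝ) ^ (1 / 2 - s.re) ≤ 1 / 2) :
    ‖EL a b γ s v‖ ≤ 3 * N * (nm v : ℝ) ^ (1 / 2 - s.re) := by
  unfold EL
  refine (norm_sum_le _ _).trans ?_
  refine (Finset.sum_le_card_nsmul _ _ (3 * (nm v : ℝ) ^ (1 / 2 - s.re)) fun j _ => ?_).trans ?_
  · refine (ell_le ht ((zz_norm hγ j).trans hz)).trans ?_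
    have := zz_norm (s := s) (v := v) hγ j
    linarith
  · rw [card_univ, Fintype.card_fin, nsmul_eq_mul]
    exact le_of_eq (by ring)

/-- the primes of degree at least two -/
lemma summable_two {x : ℝ} (hx : 1 / 2 < x) :
    Summable fun v : HeightOneSpectrum (𝓞 K) => if (nm v).Prime then (0 : ℝ) else (nm v : ℝ) ^ (-x) := by
  classical
  rw [← (Equiv.sigmaFiberEquiv (below (K := K))).summable_iff]
  rw [summable_sigma_of_nonneg (fun c => by
    dsimp only [Function.comp]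
    split_ifs
    · exact le_rfl
    · positivity)]
  refine ⟨fun p => (Summable.of_finite), ?_⟩
  refine Summable.of_nonneg_of_le (fun p => tsum_nonneg fun v => ?_) (fun p => ?_)
    ((summable_primes_rpow (x := 2 * x) (by linarith)).mul_left (Module.finrank ℚ K : ℝ))
  · dsimp only [Function.comp]
    split_ifs
    · exact le_rfl
    · positivity
  · rw [tsum_fintype]
    refine (Finset.sum_le_card_nsmul _ _ (((p : ℕ) : ℝ) ^ (-(2 * x))) fun v _ => ?_).trans ?_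
    · dsimp only [Function.comp]
      split_ifs with hpr
      · positivity
      · obtain ⟨h1, h2, _⟩ := nm_eq v.1
        rw [v.2] at h1
        have hp1 : (1 : ℝ) ≤ (p : ℕ) := by exact_mod_cast p.prop.one_lt.le
        have e1 : nm ((Equiv.sigmaFiberEquiv (below (K := K))) ⟨p, v⟩) = nm v.1 := rfl
        have hd2 : 2 ≤ deg v.1 := by
          by_contra hlt
          have h3 : deg v.1 = 1 := by omega
          apply hpr
          rw [e1, h1, h3, pow_one]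
          exact p.prop
        rw [e1, h1]
        push_cast
        rw [← Real.rpow_natCast, ← Real.rpow_mul (by positivity)]
        refine Real.rpow_le_rpow_of_exponent_le hp1 ?_
        have hd2' : (2 : ℝ) ≤ (deg v.1 : ℝ) := by exact_mod_cast hd2
        nlinarith
    · rw [card_univ, nsmul_eq_mul]
      exact mul_le_mul_of_nonneg_right (by exact_mod_cast fiber_card_le p) (by positivity)

end nf

end Pool.Agent.Y770.EP
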