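import Pool.Agent.Y770.EP.Main

/-!
# Almost all curves `y² = x³ + a x + b + n`: the theorem
-/

set_option autoImplicit false

open Finset NumberField IsDedekindDomain Filter
open Pool.Agent.H921R2.TatePole (nm two_le_nm nm_summable)

namespace Pool.Agent.Y770.EP

section nf
variable {K : Type} [Field K] [NumberField K] {N : ℕ}

/-- the partial products are close to each other in the half-plane `Re s ≥ 1 + δ` -/
def R1 (δ c : ℝ) (X : ℕ) (a b : 𝓞 K) (γ : HeightOneSpectrum (𝓞 K) → Fin N → ℂ) : Prop :=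
  ∀ s : ℂ, 1 + δ ≤ s.re → |s.im| ≤ (X : ℝ) ^ c → ∀ y x : ℕ, (Real.log X) ^ (1 / c) ≤ y → y ≤ x →
    (x : ℝ) ≤ (X : ℝ) ^ c → ‖PP a b γ s x / PP a b γ s y - 1‖ ≤ (y : ℝ) ^ (-c)

/-- the partial products are close to the product at the distance `A / log X` of the edge -/
def R2 (η A c : ℝ) (X : ℕ) (a b : 𝓞 K) (γ : HeightOneSpectrum (𝓞 K) → Fin N → ℂ) : Prop :=
  ∀ s : ℂ, 3 / 2 + A / Real.log X ≤ s.re → |s.im| ≤ (X : ℝ) ^ c → ∀ y : ℕ,
    (Real.log X) ^ (1 / c) ≤ y → ‖LL a b γ s / PP a b γ s y - 1‖ ≤ η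

theorem final (K : Type) [Field K] [NumberField K] (N : ℕ) (δ : ℝ) (hδ : 0 < δ) :
    ∃ c : ℝ, 0 < c ∧ ∀ η : ℝ, 0 < η → ∃ A : ℝ, ∃ X₀ : ℕ, ∀ X : ℕ, X₀ ≤ X → ∀ a b : 𝓞 K, ∀ m : ℕ,
      (m : ℝ) ≤ (X : ℝ) ^ c → ∀ γ : Fin m → HeightOneSpectrum (𝓞 K) → Fin N → ℂ,
        (∀ k v j, ‖γ k v j‖ ≤ 1) →
        ({n : ℤ | |n| ≤ X ∧ ¬ ∀ k, R1 δ c X a (b + (n : 𝓞 K)) (γ k) ∧
          R2 η A c X a (b + (n : 𝓞 K)) (γ k)}.ncard : ℝ) ≤ (X : ℝ) ^ (1 - c) := by
  classical
  obtain ⟨d, hd⟩ : ∃ d : ℝ, d = min δ (1 / 2) := ⟨_, rfl⟩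
  have hd0 : 0 < d := by rw [hd]; positivity
  have hd1 : d ≤ 1 / 2 := by rw [hd]; exact min_le_right _ _
  have hdδ : d ≤ δ := by rw [hd]; exact min_le_left _ _
  obtain ⟨T0, hT02, hT0⟩ := almost_all (δ := d) (M := Module.finrank ℚ K * (2 * N) + 1) hd0 hd1
    (by have : (0 : ℝ) ≤ Module.finrank ℚ K * (2 * N) := by positivity
        linarith)
  obtain ⟨C0, σ₀, hσ₀, hC0⟩ := Pool.Agent.TH942.ES.nf_log_sum K
  obtain ⟨C, hC⟩ : ∃ C : ℝ, C = max C0 0 := ⟨_, rfl⟩
  have hC0' : 0 ≤ C := by rw [hC]; exact le_max_right _ _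
  have hCC : C0 ≤ C := by rw [hC]; exact le_max_left _ _
  obtain ⟨Z, hZ⟩ : ∃ Z : ℝ, Z = 1 + (3 * N * Z1 K d + 2 * N * Z2 K d) := ⟨_, rfl⟩
  have hZ1 : 1 ≤ Z := by
    have h1 := Z1_nonneg (K := K) d
    have h2 := Z2_nonneg (K := K) d
    rw [hZ]
    have : 0 ≤ 3 * N * Z1 K d + 2 * N * Z2 K d := by positivity
    linarith
  obtain ⟨c, hc⟩ : ∃ c : ℝ, c = d / 4000 := ⟨_, rfl⟩
  have hc0 : 0 < c := by rw [hc]; positivity
  have hdc : d = 4000 * c := by rw [hc]; ring
  have hc1 : c ≤ 1 / 8000 := by rw [hc]; linarith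
  refine ⟨c, hc0, fun η hη => ?_⟩
  obtain ⟨η', hη'⟩ : ∃ η' : ℝ, η' = min η 1 := ⟨_, rfl⟩
  have hη0 : 0 < η' := by rw [hη']; positivity
  have hη1 : η' ≤ 1 := by rw [hη']; exact min_le_right _ _
  have hηη : η' ≤ η := by rw [hη']; exact min_le_left _ _
  obtain ⟨A, hA⟩ : ∃ A : ℝ, A = 24 * N * C / (c * η') + 1 := ⟨_, rfl⟩
  have hA1 : 1 ≤ A := by
    rw [hA]
    have : 0 ≤ 24 * N * C / (c * η') := by positivity
    linarith
  have hA0 : 0 < A := by linarith
  have ev : ∀ᶠ X : ℕ in atTop, 2 ≤ Real.log X ∧ 3 ≤ (X : ℝ) ^ c ∧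
      2 * Z ≤ (Real.log X) ^ (249 : ℝ) ∧ 4 * Z / η' ≤ (Real.log X) ^ (249 : ℝ) ∧
      A / Real.log X < σ₀ ∧ 4 ≤ (X : ℝ) ^ (c / 2) ∧ 2 * (Real.log X) ^ (4 / d) ≤ (Real.log X) ^ (1 / c) := by
    have e1 : ∀ᶠ X : ℕ in atTop, 2 ≤ (Real.log X) ^ (1 : ℝ) := ev_log one_pos
    have e2 : ∀ᶠ X : ℕ in atTop, A / σ₀ + 1 ≤ (Real.log X) ^ (1 : ℝ) := ev_log one_pos
    filter_upwards [e1, ev_rpow (C := 3) hc0, ev_log (C := 2 * Z) (show (0 : ℝ) < 249 by norm_num),
      ev_log (C := 4 * Z / η') (show (0 : ℝ) < 249 by norm_num), e2,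
      ev_rpow (C := 4) (show 0 < c / 2 by positivity)] with X a1 a2 a3 a4 a5 a6
    rw [Real.rpow_one] at a1 a5
    have hL0 : 0 < Real.log X := by linarith
    refine ⟨a1, a2, a3, a4, ?_, a6, ?_⟩
    · rw [div_lt_iff₀ hL0, mul_comm, ← div_lt_iff₀ hσ₀]
      linarith
    · have h1 : (Real.log X) ^ (1 / c) = (Real.log X) ^ (4 / d) * (Real.log X) ^ (1 / c - 4 / d) := by
        rw [← Real.rpow_add hL0]; congr 1; ring
      have h2 : (1 : ℝ) ≤ 1 / c - 4 / d := by
        rw [hdc]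
        have h3 : 1 / c - 4 / (4000 * c) = (999 / 1000) / c := by field_simp; norm_num
        rw [h3, le_div_iff₀ hc0]
        linarith
      have h3 : (Real.log X) ^ (1 : ℝ) ≤ (Real.log X) ^ (1 / c - 4 / d) :=
        Real.rpow_le_rpow_of_exponent_le (by linarith) h2
      rw [Real.rpow_one] at h3
      rw [h1, mul_comm]
      exact mul_le_mul_of_nonneg_left (a1.trans h3) (by positivity)
  obtain ⟨X1, hX1⟩ := eventually_atTop.1 ev
  refine ⟨A, max X1 (max T0 3), fun X hX a b m hm γ hγ => ?_⟩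
  obtain ⟨hL2, hX3, hZL, hZη, hAσ, hX4, hlog⟩ := hX1 X ((le_max_left _ _).trans hX)
  have hXT : T0 ≤ X := ((le_max_left _ _).trans (le_max_right _ _)).trans hX
  have hX3' : 3 ≤ X := ((le_max_right _ _).trans (le_max_right _ _)).trans hX
  have hXr : (3 : ℝ) ≤ X := by exact_mod_cast hX3'
  have hX0 : (0 : ℝ) < X := by linarith
  have hL0 : 0 < Real.log X := by linarith
  -- the box
  obtain ⟨T, hT⟩ : ∃ T : ℕ, T = 2 * X + 1 := ⟨_, rfl⟩
  have hTr : (T : ℝ) = 2 * X + 1 := by rw [hT]; push_cast; ring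
  have hXT' : (X : ℝ) ≤ T := by rw [hTr]; linarith
  have hT3 : (T : ℝ) ≤ 3 * X := by rw [hTr]; linarith
  have hTc : (X : ℝ) ^ c ≤ (T : ℝ) ^ (d / 2000) := by
    calc (X : ℝ) ^ c ≤ (T : ℝ) ^ c := Real.rpow_le_rpow hX0.le hXT' hc0.le
      _ ≤ (T : ℝ) ^ (d / 2000) := Real.rpow_le_rpow_of_exponent_le (by linarith) (by rw [hdc]; linarith)
  have hTlog : (Real.log T) ^ (4 / d) ≤ (Real.log X) ^ (1 / c) := by
    have h1 : Real.log T ≤ 2 * Real.log X := by
      have h2 : (T : ℝ) ≤ (X : ℝ) ^ 2 := by nlinarith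
      have h3 := Real.log_le_log (by linarith) h2
      rwa [Real.log_pow, Nat.cast_ofNat] at h3
    have hT0' : 0 ≤ Real.log T := Real.log_nonneg (by linarith)
    have h2 : Real.log T ≤ Real.log X ^ (2 : ℝ) := by
      rw [Real.rpow_two]
      nlinarith
    calc (Real.log T) ^ (4 / d) ≤ (Real.log X ^ (2 : ℝ)) ^ (4 / d) :=
          Real.rpow_le_rpow hT0' h2 (by positivity)
      _ = (Real.log X) ^ (8 / d) := by rw [← Real.rpow_mul hL0.le]; congr 1; ring
      _ ≤ (Real.log X) ^ (1 / c) := by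
          refine Real.rpow_le_rpow_of_exponent_le (by linarith) ?_
          rw [hdc]
          have h3 : 8 / (4000 * c) = (1 / 500) * (1 / c) := by field_simp; norm_num
          rw [h3]
          have : 0 < 1 / c := by positivity
          linarith
  have hcount := hT0 T (hXT.trans (by omega)) (univ : Finset (Fin m)) (fun k => gp a b (γ k))
    (fun k _ => sys_gp a b (hγ k)) (by
      rw [card_univ, Fintype.card_fin]
      exact hm.trans hTc) (-(X : ℤ))
  -- good `n`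
  have hgood : ∀ n : ℤ, (∀ k, Good d (d / 2000) T fun p => gp a b (γ k) p n) → ∀ k,
      R1 δ c X a (b + (n : 𝓞 K)) (γ k) ∧ R2 η A c X a (b + (n : 𝓞 K)) (γ k) := by
    intro n hn k
    -- the logarithms
    have hlogs : ∀ s : ℂ, 1 + d ≤ s.re → |s.im| ≤ (X : ℝ) ^ c → ∀ y x : ℕ,
        (Real.log X) ^ (1 / c) ≤ y → (x : ℝ) ≤ (X : ℝ) ^ c →
        ‖∑ v ∈ (GG K y x).filter (GD a (b + (n : 𝓞 K))), EL a (b + (n : 𝓞 K)) (γ k) s v‖ ≤
          Z * (y : ℝ) ^ (-(250 * c)) := by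
      intro s hs hs2 y x hy hx
      have hy4 : 4 ≤ y := by
        have h1 : (4 : ℝ) ≤ (Real.log X) ^ (1 / c) := by
          have h2 : (2 : ℝ) ≤ 1 / c := by rw [le_div_iff₀ hc0]; linarith
          calc (4 : ℝ) = 2 ^ (2 : ℝ) := by norm_num
            _ ≤ (Real.log X) ^ (2 : ℝ) := Real.rpow_le_rpow (by norm_num) hL2 (by norm_num)
            _ ≤ (Real.log X) ^ (1 / c) := Real.rpow_le_rpow_of_exponent_le (by linarith) h2
        exact_mod_cast h1.trans hy
      have h1 := strip_log (hγ k) hd0 (hn k) hs (hs2.trans hTc) hy4 (hTlog.trans hy) (hx.trans hTc)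
      rw [← hZ] at h1
      have h2 : d / 16 = 250 * c := by rw [hdc]; ring
      rw [h2] at h1
      convert h1 using 2
    have hypow : ∀ y : ℕ, (Real.log X) ^ (1 / c) ≤ y → (Real.log X) ^ (249 : ℝ) ≤ (y : ℝ) ^ (249 * c) := by
      intro y hy
      have h1 := Real.rpow_le_rpow (by positivity) hy (show 0 ≤ 249 * c by positivity)
      refine le_trans (le_of_eq ?_) h1
      rw [← Real.rpow_mul hL0.le]
      congr 1
      field_simp
    have hy1 : ∀ y : ℕ, (Real.log X) ^ (1 / c) ≤ y → (1 : ℝ) ≤ y := fun y hy => by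
      refine le_trans ?_ hy
      exact Real.one_le_rpow (by linarith) (by positivity)
    constructor
    · intro s hs hs2 y x hy hyx hx
      have hs' : 1 + d ≤ s.re := by linarith
      have hyr := hy1 y hy
      have hy0 : (0 : ℝ) < y := by linarith
      have h1 := hlogs s hs' hs2 y x hy hx
      have h2 : 2 * (Z * (y : ℝ) ^ (-(250 * c))) ≤ (y : ℝ) ^ (-c) := by
        calc 2 * (Z * (y : ℝ) ^ (-(250 * c))) = (2 * Z) * (y : ℝ) ^ (-(250 * c)) := by ring
          _ ≤ (y : ℝ) ^ (249 * c) * (y : ℝ) ^ (-(250 * c)) :=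
              mul_le_mul_of_nonneg_right (hZL.trans (hypow y hy)) (by positivity)
          _ = (y : ℝ) ^ (-c) := by rw [← Real.rpow_add hy0]; congr 1; ring
      have h3 : (y : ℝ) ^ (-c) ≤ 1 := Real.rpow_le_one_of_one_le_of_nonpos hyr (by linarith)
      rw [PP_div (hγ k) (by linarith) hyx]
      refine (norm_exp_sub_one (h1.trans ?_)).trans ?_
      · linarith [norm_nonneg (∑ v ∈ (GG K y x).filter (GD a (b + (n : 𝓞 K))),
          EL a (b + (n : 𝓞 K)) (γ k) s v)]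
      · linarith
    · intro s hs hs2 y hy
      have hyr := hy1 y hy
      have hε0 : 0 < A / Real.log X := by positivity
      have hsre : 3 / 2 < s.re := by linarith
      obtain ⟨hsum, hCb⟩ := hC0 (A / Real.log X) hε0 hAσ
      obtain ⟨x0, hx0⟩ : ∃ x0 : ℕ, x0 = ⌊(X : ℝ) ^ c⌋₊ := ⟨_, rfl⟩
      have hXc0 : (0 : ℝ) ≤ (X : ℝ) ^ c := by positivity
      have hx0le : (x0 : ℝ) ≤ (X : ℝ) ^ c := by rw [hx0]; exact Nat.floor_le hXc0
      have hx0lo : (X : ℝ) ^ (c / 2) ≤ x0 := by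
        have h1 := Nat.lt_floor_add_one ((X : ℝ) ^ c)
        rw [← hx0] at h1
        have h2 : (X : ℝ) ^ c = (X : ℝ) ^ (c / 2) * (X : ℝ) ^ (c / 2) := by
          rw [← Real.rpow_add hX0]; congr 1; ring
        nlinarith
      have htail : ∀ z : ℕ, x0 ≤ z → ‖∑' v, EG a (b + (n : 𝓞 K)) (γ k) s v -
          ∑ v ∈ FN K z, EG a (b + (n : 𝓞 K)) (γ k) s v‖ ≤ η' / 4 := by
        intro z hz
        have hzr : (X : ℝ) ^ (c / 2) ≤ z := hx0lo.trans (by exact_mod_cast hz)
        have hz2 : 2 ≤ z := by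
          have : (2 : ℝ) ≤ z := by linarith
          exact_mod_cast this
        refine (tail_le (hγ k) hε0 hsum (hCb.trans hCC) hs hz2).trans ?_
        have hlogz : c / 2 * Real.log X ≤ Real.log z := by
          have h1 := Real.log_le_log (by positivity) hzr
          rwa [Real.log_rpow hX0] at h1
        have hlz0 : 0 < c / 2 * Real.log X := by positivity
        calc 3 * N * (C / (A / Real.log X)) / Real.log z
            ≤ 3 * N * (C / (A / Real.log X)) / (c / 2 * Real.log X) :=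
              div_le_div_of_nonneg_left (by positivity) hlz0 hlogz
          _ = (6 * N * C) / (c * A) := by field_simp; ring
          _ ≤ η' / 4 := by
              rw [div_le_iff₀ (by positivity)]
              have h5 : 24 * N * C / (c * η') ≤ A := by rw [hA]; linarith
              rw [div_le_iff₀ (by positivity)] at h5
              linarith
      have hrest : ‖∑' v, EG a (b + (n : 𝓞 K)) (γ k) s v -
          ∑ v ∈ FN K y, EG a (b + (n : 𝓞 K)) (γ k) s v‖ ≤ η' / 2 := by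
        by_cases hyx : x0 ≤ y
        · exact (htail y hyx).trans (by linarith)
        · push Not at hyx
          have h1 := htail x0 le_rfl
          have h2 := hlogs s (by linarith) hs2 y x0 hy hx0le
          have h3 : ∑ v ∈ FN K x0, EG a (b + (n : 𝓞 K)) (γ k) s v -
              ∑ v ∈ FN K y, EG a (b + (n : 𝓞 K)) (γ k) s v =
              ∑ v ∈ (GG K y x0).filter (GD a (b + (n : 𝓞 K))), EL a (b + (n : 𝓞 K)) (γ k) s v := by
            rw [Finset.sum_filter]
            have e1 : FN K x0 = GG K y x0 ∪ FN K y := by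
              ext v
              simp only [mem_union, mem_GG, mem_FN]
              omega
            have e2 : Disjoint (GG K y x0) (FN K y) := by
              rw [Finset.disjoint_left]
              intro v hv hv'
              simp only [mem_GG, mem_FN] at hv hv'
              omega
            rw [e1, Finset.sum_union e2, add_sub_cancel_right]
            rfl
          have h4 : Z * (y : ℝ) ^ (-(250 * c)) ≤ η' / 4 := by
            have h5 : (y : ℝ) ^ (-(250 * c)) ≤ (y : ℝ) ^ (-(249 * c)) :=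
              Real.rpow_le_rpow_of_exponent_le hyr (by linarith)
            have h6 : (y : ℝ) ^ (-(249 * c)) = ((y : ℝ) ^ (249 * c))⁻¹ := Real.rpow_neg (by linarith) _
            have h7 : 4 * Z / η' ≤ (y : ℝ) ^ (249 * c) := hZη.trans (hypow y hy)
            have h8 : 0 < 4 * Z / η' := by positivity
            have h9 : ((y : ℝ) ^ (249 * c))⁻¹ ≤ (4 * Z / η')⁻¹ := inv_anti₀ h8 h7
            calc Z * (y : ℝ) ^ (-(250 * c)) ≤ Z * (4 * Z / η')⁻¹ := by
                  refine mul_le_mul_of_nonneg_left ?_ (by linarith)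
                  rw [h6] at h5
                  exact h5.trans h9
              _ = η' / 4 := by field_simp
          calc _ = ‖(∑' v, EG a (b + (n : 𝓞 K)) (γ k) s v -
                ∑ v ∈ FN K x0, EG a (b + (n : 𝓞 K)) (γ k) s v) +
                (∑ v ∈ FN K x0, EG a (b + (n : 𝓞 K)) (γ k) s v -
                ∑ v ∈ FN K y, EG a (b + (n : 𝓞 K)) (γ k) s v)‖ := by rw [sub_add_sub_cancel]
            _ ≤ _ := norm_add_le _ _
            _ ≤ η' / 4 + η' / 4 := add_le_add h1 (by rw [h3]; exact h2.trans h4)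
            _ = η' / 2 := by ring
      rw [LL_eq (hγ k) hε0 hs, PP_exp (hγ k) (by linarith), ← Complex.exp_sub]
      refine (norm_exp_sub_one (hrest.trans (by linarith))).trans ?_
      linarith
  -- the count
  have hcard : ({n : ℤ | |n| ≤ X ∧ ¬ ∀ k, R1 δ c X a (b + (n : 𝓞 K)) (γ k) ∧
      R2 η A c X a (b + (n : 𝓞 K)) (γ k)}.ncard : ℝ) ≤ (Nat.card {n : ℕ // n < T ∧ ¬ ∀ k ∈ (univ : Finset (Fin m)),
        Good d (d / 2000) T fun p => gp a b (γ k) p (-(X : ℤ) + n)} : ℝ) := by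
    set S := {n : ℕ | n < T ∧ ¬ ∀ k ∈ (univ : Finset (Fin m)),
        Good d (d / 2000) T fun p => gp a b (γ k) p (-(X : ℤ) + n)} with hS
    have hSfin : S.Finite := Set.Finite.subset (Set.finite_Iio T) fun n hn => hn.1
    have h1 : {n : ℤ | |n| ≤ X ∧ ¬ ∀ k, R1 δ c X a (b + (n : 𝓞 K)) (γ k) ∧
        R2 η A c X a (b + (n : 𝓞 K)) (γ k)} ⊆ (fun n : ℕ => -(X : ℤ) + n) '' S := by
      rintro n ⟨hn1, hn2⟩
      have h2 := abs_le.1 hn1
      refine ⟨(n + X).toNat, ⟨?_, fun hcon => hn2 (hgood n fun k => ?_)⟩, ?_⟩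
      · omega
      · have h3 := hcon k (mem_univ k)
        have h4 : -(X : ℤ) + ((n + X).toNat : ℤ) = n := by omega
        rw [h4] at h3
        exact h3
      · dsimp only
        omega
    have h2 := Set.ncard_le_ncard h1 (hSfin.image _)
    have h3 := Set.ncard_image_le (f := fun n : ℕ => -(X : ℤ) + n) hSfin
    have h4 : Nat.card {n : ℕ // n < T ∧ ¬ ∀ k ∈ (univ : Finset (Fin m)),
        Good d (d / 2000) T fun p => gp a b (γ k) p (-(X : ℤ) + n)} = S.ncard := rfl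
    rw [h4]
    exact_mod_cast h2.trans h3
  refine hcard.trans (hcount.trans ?_)
  calc (T : ℝ) ^ (1 - d / 2000) ≤ (3 * X : ℝ) ^ (1 - d / 2000) :=
        Real.rpow_le_rpow (by linarith) hT3 (by rw [hdc]; linarith)
    _ = 3 ^ (1 - d / 2000) * (X : ℝ) ^ (1 - d / 2000) := Real.mul_rpow (by norm_num) hX0.le
    _ ≤ 3 * (X : ℝ) ^ (1 - d / 2000) := by
        refine mul_le_mul_of_nonneg_right ?_ (by positivity)
        calc (3 : ℝ) ^ (1 - d / 2000) ≤ 3 ^ (1 : ℝ) :=
              Real.rpow_le_rpow_of_exponent_le (by norm_num) (by linarith)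
          _ = 3 := Real.rpow_one _
    _ ≤ (X : ℝ) ^ c * (X : ℝ) ^ (1 - d / 2000) := mul_le_mul_of_nonneg_right hX3 (by positivity)
    _ = (X : ℝ) ^ (1 - c) := by
        rw [← Real.rpow_add hX0, hdc]
        congr 1
        ring

end nf

end Pool.Agent.Y770.EP
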