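import Pool.Agent.W165.CE.FF
import Pool.Agent.TH942.ES.NF

/-!
# Local facts on the curves `y² = x³ + a x + b` modulo a prime
-/

set_option autoImplicit false

open Finset NumberField IsDedekindDomain
open Pool.Agent.H921R2.TatePole (nm two_le_nm)

namespace Pool.Agent.Y770.EP

section ff
variable {k : Type*} [Field k] [Fintype k]

/-- the number of points of a singular cubic -/
lemma sing {A B : k} (h6 : (6 : k) ≠ 0) (hD : 4 * A ^ 3 + 27 * B ^ 2 = 0) :
    |(Fintype.card k : ℝ) - Nat.card {P : k × k // P.2 ^ 2 = P.1 ^ 3 + A * P.1 + B}| ≤ 1 := by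
  classical
  have h2 : (2 : k) ≠ 0 := by
    intro h; apply h6
    have : (6 : k) = 3 * 2 := by norm_num
    rw [this, h, mul_zero]
  have h3 : (3 : k) ≠ 0 := by
    intro h; apply h6
    have : (6 : k) = 2 * 3 := by norm_num
    rw [this, h, mul_zero]
  have h27 : (27 : k) ≠ 0 := by
    have : (27 : k) = 3 ^ 3 := by norm_num
    rw [this]; exact pow_ne_zero _ h3
  have h4 : (4 : k) ≠ 0 := by
    have : (4 : k) = 2 ^ 2 := by norm_num
    rw [this]; exact pow_ne_zero _ h2
  obtain ⟨r, hA, hB⟩ : ∃ r : k, A = -3 * r ^ 2 ∧ B = 2 * r ^ 3 := by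
    by_cases hA : A = 0
    · refine ⟨0, by rw [hA]; ring, ?_⟩
      rw [hA] at hD
      have : B ^ 2 = 0 := by
        have h5 : (27 : k) * B ^ 2 = 0 := by linear_combination hD
        exact (mul_eq_zero.1 h5).resolve_left h27
      rw [pow_eq_zero_iff (by norm_num)] at this
      rw [this]; ring
    · refine ⟨-3 * B / (2 * A), ?_, ?_⟩
      · field_simp
        linear_combination hD
      · have hA3 : A ^ 3 ≠ 0 := pow_ne_zero _ hA
        field_simp
        linear_combination (B) * hD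
  have hchar : ringChar k ≠ 2 := by
    intro h
    apply h2
    have := ringChar.Nat.cast_ringChar (R := k)
    rw [h] at this
    exact_mod_cast this
  have hc := Pool.Agent.H82R3.EK.card_points hchar (fun x : k => x ^ 3 + A * x + B)
  have hsum : ∑ x : k, quadraticChar k (x ^ 3 + A * x + B) = - quadraticChar k (3 * r) := by
    have e1 : ∀ x : k, quadraticChar k (x ^ 3 + A * x + B) =
        quadraticChar k (x + 2 * r) - if x = r then quadraticChar k (3 * r) else 0 := by
      intro x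
      have e2 : x ^ 3 + A * x + B = (x - r) ^ 2 * (x + 2 * r) := by
        rw [hA, hB]; ring
      rw [e2, map_mul]
      split_ifs with hx
      · rw [hx]
        have e3 : r + 2 * r = 3 * r := by ring
        rw [e3, sub_self, sub_self]
        simp
      · have e4 : quadraticChar k ((x - r) ^ 2) = 1 := by
          rw [map_pow]
          exact quadraticChar_sq_one (sub_ne_zero.2 hx)
        rw [e4, one_mul, sub_zero]
    rw [Finset.sum_congr rfl fun x _ => e1 x, Finset.sum_sub_distrib]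
    have e5 : ∑ x : k, quadraticChar k (x + 2 * r) = 0 := by
      rw [← quadraticChar_sum_zero hchar]
      exact Fintype.sum_equiv (Equiv.addRight (2 * r)) _ _ fun x => rfl
    rw [e5, Finset.sum_ite_eq' univ r, if_pos (mem_univ _)]
    ring
  rw [hsum] at hc
  have h6 := congrArg (fun z : ℤ => (z : ℝ)) hc
  push_cast at h6
  rw [h6]
  have h7 : (Fintype.card k : ℝ) - ((Fintype.card k : ℝ) + -((quadraticChar k (3 * r) : ℤ) : ℝ)) =
      ((quadraticChar k (3 * r) : ℤ) : ℝ) := by ring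
  rw [h7]
  by_cases hr : 3 * r = 0
  · rw [hr]; simp
  · rcases quadraticChar_dichotomy hr with h | h <;> rw [h] <;> norm_num

/-- Hasse's bound for all cubics, in all characteristics different from two -/
lemma hasse_all (hk : ringChar k ≠ 2) (A B : k) :
    |(Fintype.card k : ℝ) - Nat.card {P : k × k // P.2 ^ 2 = P.1 ^ 3 + A * P.1 + B}| ≤
      2 * √(Fintype.card k) := by
  classical
  have := W165.CE.hasse hk A B
  push_cast at this
  exact this

/-- the trivial bound for two elements -/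
lemma two_el (hk : Fintype.card k = 2) (A B : k) :
    |(Fintype.card k : ℝ) - Nat.card {P : k × k // P.2 ^ 2 = P.1 ^ 3 + A * P.1 + B}| ≤
      2 * √(Fintype.card k) := by
  classical
  have h1 : Nat.card {P : k × k // P.2 ^ 2 = P.1 ^ 3 + A * P.1 + B} ≤ 4 := by
    rw [Nat.card_eq_fintype_card]
    refine (Fintype.card_subtype_le _).trans (le_of_eq ?_)
    rw [Fintype.card_prod, hk]
  have h2 : ((Nat.card {P : k × k // P.2 ^ 2 = P.1 ^ 3 + A * P.1 + B} : ℕ) : ℝ) ≤ 4 := by
    exact_mod_cast h1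
  have h3 : (0 : ℝ) ≤ ((Nat.card {P : k × k // P.2 ^ 2 = P.1 ^ 3 + A * P.1 + B} : ℕ) : ℝ) :=
    Nat.cast_nonneg _
  rw [hk]
  have h4 : (1 : ℝ) ≤ √((2 : ℕ) : ℝ) := by
    rw [Real.one_le_sqrt]; norm_num
  rw [abs_le]
  constructor <;> push_cast at * <;> linarith

/-- the sum over the constant term of the numbers of points -/
lemma pts_sum {p : ℕ} (hp : p.Prime) (hcard : Fintype.card k = p) (A B : k) :
    ∑ j ∈ range p, Nat.card {P : k × k // P.2 ^ 2 = P.1 ^ 3 + A * P.1 + (B + ((j : ℕ) : k))} =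
      p * p := by
  classical
  have hzero : ((p : ℕ) : k) = 0 := by rw [← hcard]; exact Nat.cast_card_eq_zero k
  have hcharP : CharP k p := by
    have h1 := ringChar.dvd hzero
    have h3 := ((Nat.dvd_prime hp).1 h1).resolve_left CharP.ringChar_ne_one
    rw [← h3]
    exact ringChar.charP k
  have hbij : ∀ c : k, (#{j ∈ range p | ((j : ℕ) : k) = c}) = 1 := by
    have hinj : Set.InjOn (fun j : ℕ => (j : k)) (range p : Set ℕ) := by
      intro i hi j hj hij
      simp only [coe_range, Set.mem_Iio] at hi hj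
      have h1 : (i : k) = (j : k) := hij
      rw [CharP.cast_eq_iff_mod_eq k p] at h1
      rwa [Nat.mod_eq_of_lt hi, Nat.mod_eq_of_lt hj] at h1
    have himg : (range p).image (fun j : ℕ => (j : k)) = univ := by
      apply Finset.eq_univ_of_card
      rw [Finset.card_image_of_injOn hinj, card_range, hcard]
    intro c
    have hc : c ∈ (range p).image (fun j : ℕ => (j : k)) := by rw [himg]; exact mem_univ _
    obtain ⟨j, hj, hjc⟩ := mem_image.1 hc
    rw [Finset.card_eq_one]
    refine ⟨j, ?_⟩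
    ext i
    rw [mem_filter, mem_singleton]
    constructor
    · rintro ⟨hi, hic⟩
      exact hinj (by simpa using hi) (by simpa using hj) (by dsimp only; rw [hic, hjc])
    · rintro rfl
      exact ⟨hj, hjc⟩
  have h1 : ∀ j : ℕ, Nat.card {P : k × k // P.2 ^ 2 = P.1 ^ 3 + A * P.1 + (B + ((j : ℕ) : k))} =
      #{P : k × k | ((j : ℕ) : k) = P.2 ^ 2 - (P.1 ^ 3 + A * P.1 + B)} := by
    intro j
    rw [Nat.card_eq_fintype_card, Fintype.card_subtype]
    congr 1
    ext P
    simp only [mem_filter, mem_univ, true_and]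
    constructor
    · intro h
      rw [h]; ring
    · intro h
      rw [h]; ring
  simp_rw [h1, Finset.card_filter]
  rw [Finset.sum_comm]
  have h2 : ∀ P : k × k, ∑ j ∈ range p, (if ((j : ℕ) : k) = P.2 ^ 2 - (P.1 ^ 3 +
      A * P.1 + B) then 1 else 0) = 1 := by
    intro P
    rw [← Finset.card_filter]
    exact hbij _
  rw [Finset.sum_congr rfl fun P _ => h2 P, Finset.sum_const, smul_eq_mul, mul_one, card_univ,
    Fintype.card_prod, hcard]

end ff

section nf
variable {K : Type} [Field K] [NumberField K]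

/-- the number of the solutions of `y² = x³ + a x + b` modulo `v` -/
noncomputable def pts (a b : 𝓞 K) (v : HeightOneSpectrum (𝓞 K)) : ℕ :=
  Nat.card {P : (𝓞 K ⧸ v.asIdeal) × (𝓞 K ⧸ v.asIdeal) //
    P.2 ^ 2 = P.1 ^ 3 + Ideal.Quotient.mk v.asIdeal a * P.1 + Ideal.Quotient.mk v.asIdeal b}

/-- the normalised trace of Frobenius -/
noncomputable def tv (a b : 𝓞 K) (v : HeightOneSpectrum (𝓞 K)) : ℝ :=
  ((nm v : ℝ) - pts a b v) / √(nm v)

lemma finite_quot (v : HeightOneSpectrum (𝓞 K)) : Finite (𝓞 K ⧸ v.asIdeal) := by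
  have h1 : nm v ≠ 0 := by have := two_le_nm v; omega
  unfold Pool.Agent.H921R2.TatePole.nm at h1
  rw [Ideal.absNorm_apply, Submodule.cardQuot_apply] at h1
  exact Nat.finite_of_card_ne_zero h1

lemma card_quot (v : HeightOneSpectrum (𝓞 K)) : Nat.card (𝓞 K ⧸ v.asIdeal) = nm v := by
  unfold Pool.Agent.H921R2.TatePole.nm
  rw [Ideal.absNorm_apply, Submodule.cardQuot_apply]

lemma sqrt_pos (v : HeightOneSpectrum (𝓞 K)) : 0 < √(nm v : ℝ) := by
  have hp2 : (2 : ℝ) ≤ nm v := by exact_mod_cast two_le_nm v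
  exact Real.sqrt_pos.2 (by linarith)

/-- Hasse's bound -/
lemma tv_le (a b : 𝓞 K) (v : HeightOneSpectrum (𝓞 K))
    (hv : nm v = 2 ∨ (2 : 𝓞 K) ∉ v.asIdeal) : |tv a b v| ≤ 2 := by
  have : v.asIdeal.IsMaximal := v.isMaximal
  have hfin := finite_quot v
  let _ : Fintype (𝓞 K ⧸ v.asIdeal) := Fintype.ofFinite _
  have hcard : Fintype.card (𝓞 K ⧸ v.asIdeal) = nm v := by
    rw [← card_quot, Nat.card_eq_fintype_card]
  let _ : Field (𝓞 K ⧸ v.asIdeal) := Ideal.Quotient.field v.asIdeal
  have key : |(Fintype.card (𝓞 K ⧸ v.asIdeal) : ℝ) - pts a b v| ≤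
      2 * √(Fintype.card (𝓞 K ⧸ v.asIdeal)) := by
    unfold pts
    rcases hv with h | h
    · exact two_el (by rw [hcard, h]) _ _
    · refine hasse_all ?_ _ _
      intro hc
      apply h
      rw [← Ideal.Quotient.eq_zero_iff_mem]
      have := ringChar.Nat.cast_ringChar (R := 𝓞 K ⧸ v.asIdeal)
      rw [hc] at this
      have h2 : (Ideal.Quotient.mk v.asIdeal) (2 : 𝓞 K) = ((2 : ℕ) : 𝓞 K ⧸ v.asIdeal) := by
        rw [map_ofNat]; rfl
      rw [h2, this]
  rw [hcard] at key
  unfold tv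
  rw [abs_div, abs_of_pos (sqrt_pos v), div_le_iff₀ (sqrt_pos v)]
  exact key

/-- the trace is small at the bad primes -/
lemma tv_bad {a b : 𝓞 K} {v : HeightOneSpectrum (𝓞 K)} (h6 : (6 : 𝓞 K) ∉ v.asIdeal)
    (hD : 6 * (4 * a ^ 3 + 27 * b ^ 2) ∈ v.asIdeal) : |tv a b v| ≤ 1 / √(nm v) := by
  have : v.asIdeal.IsMaximal := v.isMaximal
  have hfin := finite_quot v
  let _ : Fintype (𝓞 K ⧸ v.asIdeal) := Fintype.ofFinite _
  have hcard : Fintype.card (𝓞 K ⧸ v.asIdeal) = nm v := by
    rw [← card_quot, Nat.card_eq_fintype_card]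
  let _ : Field (𝓞 K ⧸ v.asIdeal) := Ideal.Quotient.field v.asIdeal
  have hD' : (4 * a ^ 3 + 27 * b ^ 2) ∈ v.asIdeal := (v.isPrime.mem_or_mem hD).resolve_left h6
  have key : |(Fintype.card (𝓞 K ⧸ v.asIdeal) : ℝ) - pts a b v| ≤ 1 := by
    unfold pts
    refine sing ?_ ?_
    · intro h
      apply h6
      rw [← Ideal.Quotient.eq_zero_iff_mem, map_ofNat]
      exact h
    · rw [← Ideal.Quotient.eq_zero_iff_mem] at hD'
      simpa only [map_mul, map_add, map_pow, map_ofNat] using hD'
  rw [hcard] at key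
  unfold tv
  rw [abs_div, abs_of_pos (sqrt_pos v)]
  exact div_le_div_of_nonneg_right key (sqrt_pos v).le

/-- the trace depends only on `b` modulo the prime -/
lemma tv_congr (a : 𝓞 K) {b b' : 𝓞 K} {v : HeightOneSpectrum (𝓞 K)} (h : b - b' ∈ v.asIdeal) :
    tv a b v = tv a b' v := by
  unfold tv pts
  rw [(Ideal.Quotient.eq).2 h]

/-- the sum of the traces -/
lemma tv_mean (a b : 𝓞 K) {v : HeightOneSpectrum (𝓞 K)} {p : ℕ} (hp : p.Prime) (hv : nm v = p) :
    ∑ j ∈ range p, tv a (b + ((j : ℤ) : 𝓞 K)) v = 0 := by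
  classical
  have : v.asIdeal.IsMaximal := v.isMaximal
  have hfin := finite_quot v
  let _ : Fintype (𝓞 K ⧸ v.asIdeal) := Fintype.ofFinite _
  have hcard : Fintype.card (𝓞 K ⧸ v.asIdeal) = p := by
    rw [← hv, ← card_quot, Nat.card_eq_fintype_card]
  let _ : Field (𝓞 K ⧸ v.asIdeal) := Ideal.Quotient.field v.asIdeal
  have hpts : ∑ j ∈ range p, pts a (b + ((j : ℤ) : 𝓞 K)) v = p * p := by
    rw [← pts_sum hp hcard (Ideal.Quotient.mk v.asIdeal a) (Ideal.Quotient.mk v.asIdeal b)]
    refine Finset.sum_congr rfl fun j _ => ?_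
    unfold pts
    rw [map_add, map_intCast]
    push_cast
    rfl
  unfold tv
  rw [← Finset.sum_div, Finset.sum_sub_distrib, Finset.sum_const, card_range, nsmul_eq_mul,
    ← Nat.cast_sum, hpts, hv]
  push_cast
  rw [sub_self, zero_div]

end nf

end Pool.Agent.Y770.EP
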