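import Pool.Agent.Y770.EP.Strip

/-!
# Almost all curves `y² = x³ + a x + b + n`
-/

set_option autoImplicit false

open Finset NumberField IsDedekindDomain Filter
open Pool.Agent.H921R2.TatePole (nm two_le_nm nm_summable)

namespace Pool.Agent.Y770.EP

section nf
variable {K : Type} [Field K] [NumberField K] {N : ℕ}

/-- the partial product -/
noncomputable def PP (a b : 𝓞 K) (γ : HeightOneSpectrum (𝓞 K) → Fin N → ℂ) (s : ℂ) (x : ℕ) : ℂ :=
  ∏ᶠ v ∈ {v : HeightOneSpectrum (𝓞 K) | GD a b v ∧ nm v ≤ x}, fac a b γ s v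

/-- the product over all good primes -/
noncomputable def LL (a b : 𝓞 K) (γ : HeightOneSpectrum (𝓞 K) → Fin N → ℂ) (s : ℂ) : ℂ :=
  ∏' v : {v : HeightOneSpectrum (𝓞 K) // GD a b v}, fac a b γ s v

open Classical in
lemma PP_eq (a b : 𝓞 K) (γ : HeightOneSpectrum (𝓞 K) → Fin N → ℂ) (s : ℂ) (x : ℕ) :
    PP a b γ s x = ∏ v ∈ (FN K x).filter (GD a b), fac a b γ s v := by
  unfold PP
  have h1 : {v : HeightOneSpectrum (𝓞 K) | GD a b v ∧ nm v ≤ x} =
      ((FN K x).filter (GD a b) : Finset (HeightOneSpectrum (𝓞 K))) := by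
    ext v
    simp only [Set.mem_ofPred_eq, coe_filter, mem_FN]
    exact and_comm
  rw [h1, finprod_mem_coe_finset]

variable {a b : 𝓞 K} {γ : HeightOneSpectrum (𝓞 K) → Fin N → ℂ} {s : ℂ}

lemma nm_pow_lt (v : HeightOneSpectrum (𝓞 K)) (hs : 1 / 2 < s.re) :
    (nm v : ℝ) ^ (1 / 2 - s.re) < 1 := by
  have h2 : (2 : ℝ) ≤ nm v := by exact_mod_cast two_le_nm v
  exact Real.rpow_lt_one_of_one_lt_of_neg (by linarith) (by linarith)

lemma PP_ne (hγ : ∀ v j, ‖γ v j‖ ≤ 1) (hs : 1 / 2 < s.re) (x : ℕ) : PP a b γ s x ≠ 0 := by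
  classical
  rw [PP_eq, Finset.prod_ne_zero_iff]
  intro v hv
  rw [mem_filter] at hv
  rw [fac_eq hv.2.tv_le hγ (nm_pow_lt v hs)]
  exact Complex.exp_ne_zero _

lemma norm_exp_sub_one {w : ℂ} (h : ‖w‖ ≤ 1) : ‖Complex.exp w - 1‖ ≤ 2 * ‖w‖ :=
  Complex.norm_exp_sub_one_le h

open Classical in
lemma PP_div (hγ : ∀ v j, ‖γ v j‖ ≤ 1) (hs : 1 / 2 < s.re) {y x : ℕ} (hyx : y ≤ x) :
    PP a b γ s x / PP a b γ s y =
      Complex.exp (∑ v ∈ (GG K y x).filter (GD a b), EL a b γ s v) := by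
  rw [div_eq_iff (PP_ne hγ hs y), PP_eq, PP_eq, Complex.exp_sum]
  have h1 : (FN K x).filter (GD a b) = (GG K y x).filter (GD a b) ∪ (FN K y).filter (GD a b) := by
    ext v
    simp only [mem_union, mem_filter, mem_GG, mem_FN]
    constructor
    · rintro ⟨h2, h3⟩
      by_cases h4 : nm v ≤ y
      · exact Or.inr ⟨h4, h3⟩
      · exact Or.inl ⟨⟨by omega, h2⟩, h3⟩
    · rintro (⟨⟨_, h2⟩, h3⟩ | ⟨h2, h3⟩)
      · exact ⟨h2, h3⟩
      · exact ⟨by omega, h3⟩
  have h2 : Disjoint ((GG K y x).filter (GD a b)) ((FN K y).filter (GD a b)) := by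
    rw [Finset.disjoint_left]
    intro v hv hv'
    simp only [mem_filter, mem_GG, mem_FN] at hv hv'
    omega
  rw [h1, Finset.prod_union h2]
  congr 1
  refine Finset.prod_congr rfl fun v hv => ?_
  rw [mem_filter] at hv
  exact fac_eq hv.2.tv_le hγ (nm_pow_lt v hs)

lemma nm_half (v : HeightOneSpectrum (𝓞 K)) (hs : 3 / 2 ≤ s.re) :
    (nm v : ℝ) ^ (1 / 2 - s.re) ≤ 1 / 2 := by
  have h2 : (2 : ℝ) ≤ nm v := by exact_mod_cast two_le_nm v
  calc (nm v : ℝ) ^ (1 / 2 - s.re) ≤ (nm v : ℝ) ^ (-1 : ℝ) :=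
        Real.rpow_le_rpow_of_exponent_le (by linarith) (by linarith)
    _ ≤ 1 / 2 := by
        rw [Real.rpow_neg_one, one_div]
        exact inv_anti₀ (by norm_num) h2

open Classical in
/-- the logarithms, extended by zero -/
noncomputable def EG (a b : 𝓞 K) (γ : HeightOneSpectrum (𝓞 K) → Fin N → ℂ) (s : ℂ)
    (v : HeightOneSpectrum (𝓞 K)) : ℂ := if GD a b v then EL a b γ s v else 0

lemma EG_le (hγ : ∀ v j, ‖γ v j‖ ≤ 1) {ε : ℝ} (hε : 0 ≤ ε) (hs : 3 / 2 + ε ≤ s.re)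
    (v : HeightOneSpectrum (𝓞 K)) : ‖EG a b γ s v‖ ≤ 3 * N * (nm v : ℝ) ^ (-(1 + ε)) := by
  have h1 : (1 : ℝ) ≤ nm v := by
    have := two_le_nm v
    exact_mod_cast (by omega : 1 ≤ nm v)
  unfold EG
  split_ifs with h
  · refine (EL_le h.tv_le hγ (nm_half v (by linarith))).trans ?_
    refine mul_le_mul_of_nonneg_left ?_ (by positivity)
    exact Real.rpow_le_rpow_of_exponent_le h1 (by linarith)
  · rw [norm_zero]
    positivity

lemma EG_summable (hγ : ∀ v j, ‖γ v j‖ ≤ 1) {ε : ℝ} (hε : 0 < ε) (hs : 3 / 2 + ε ≤ s.re) :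
    Summable (EG a b γ s) :=
  Summable.of_norm_bounded ((nm_summable (x := 1 + ε) (by linarith)).mul_left (3 * (N : ℝ)))
    (EG_le hγ hε.le hs)

lemma LL_eq (hγ : ∀ v j, ‖γ v j‖ ≤ 1) {ε : ℝ} (hε : 0 < ε) (hs : 3 / 2 + ε ≤ s.re) :
    LL a b γ s = Complex.exp (∑' v, EG a b γ s v) := by
  classical
  have h1 := EG_summable (a := a) (b := b) hγ hε hs
  have h2 : Summable fun v : {v : HeightOneSpectrum (𝓞 K) // GD a b v} => EG a b γ s v :=
    h1.subtype _
  have h3 : ∑' v, EG a b γ s v = ∑' v : {v : HeightOneSpectrum (𝓞 K) // GD a b v}, EG a b γ s v := by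
    refine (tsum_subtype_eq_of_support_subset (s := {v | GD a b v}) ?_).symm
    intro v hv
    by_contra hcon
    apply hv
    unfold EG
    exact if_neg hcon
  unfold LL
  have h4 := h2.hasSum.cexp
  rw [h3, ← h4.tprod_eq]
  refine tprod_congr fun v => ?_
  rw [fac_eq v.2.tv_le hγ (nm_pow_lt v.1 (by linarith))]
  unfold EG
  simp only [Function.comp]
  rw [if_pos v.2]

open Classical in
lemma PP_exp (hγ : ∀ v j, ‖γ v j‖ ≤ 1) (hs : 1 / 2 < s.re) (y : ℕ) :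
    PP a b γ s y = Complex.exp (∑ v ∈ FN K y, EG a b γ s v) := by
  have h1 : ∑ v ∈ FN K y, EG a b γ s v = ∑ v ∈ (FN K y).filter (GD a b), EL a b γ s v := by
    unfold EG
    rw [Finset.sum_filter]
  rw [h1, PP_eq, Complex.exp_sum]
  refine Finset.prod_congr rfl fun v hv => ?_
  rw [mem_filter] at hv
  exact fac_eq hv.2.tv_le hγ (nm_pow_lt v hs)

/-- the tail of the logarithm -/
lemma tail_le (hγ : ∀ v j, ‖γ v j‖ ≤ 1) {C ε : ℝ} (hε : 0 < ε)
    (hsum : Summable fun v : HeightOneSpectrum (𝓞 K) => Real.log (nm v) * (nm v : ℝ) ^ (-(1 + ε)))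
    (hC : ε * ∑' v : HeightOneSpectrum (𝓞 K), Real.log (nm v) * (nm v : ℝ) ^ (-(1 + ε)) ≤ C)
    (hs : 3 / 2 + ε ≤ s.re) {z : ℕ} (hz : 2 ≤ z) :
    ‖∑' v, EG a b γ s v - ∑ v ∈ FN K z, EG a b γ s v‖ ≤ 3 * N * (C / ε) / Real.log z := by
  classical
  have h1 := EG_summable (a := a) (b := b) hγ hε hs
  have hz1 : (1 : ℝ) < z := by exact_mod_cast (by omega : 1 < z)
  have hlz : 0 < Real.log z := Real.log_pos hz1
  have h2 : ∑' v, EG a b γ s v - ∑ v ∈ FN K z, EG a b γ s v =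
      ∑' v, (if v ∈ FN K z then 0 else EG a b γ s v) := by
    have h3 : ∑ v ∈ FN K z, EG a b γ s v = ∑' v, (if v ∈ FN K z then EG a b γ s v else 0) := by
      rw [tsum_eq_sum (s := FN K z) (fun v hv => if_neg hv)]
      exact Finset.sum_congr rfl fun v hv => (if_pos hv).symm
    have h4 : Summable fun v => (if v ∈ FN K z then EG a b γ s v else 0) :=
      summable_of_ne_finset_zero (s := FN K z) fun v hv => if_neg hv
    rw [h3, ← h1.tsum_sub h4]
    refine tsum_congr fun v => ?_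
    split_ifs
    · rw [sub_self]
    · rw [sub_zero]
  rw [h2]
  have h5 : ∀ v : HeightOneSpectrum (𝓞 K), ‖(if v ∈ FN K z then 0 else EG a b γ s v : ℂ)‖ ≤
      3 * N / Real.log z * (Real.log (nm v) * (nm v : ℝ) ^ (-(1 + ε))) := by
    intro v
    have hq1 : (1 : ℝ) ≤ nm v := by
      have := two_le_nm v
      exact_mod_cast (by omega : 1 ≤ nm v)
    have hlq : 0 ≤ Real.log (nm v) := Real.log_nonneg hq1
    split_ifs with hv
    · rw [norm_zero]
      positivity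
    · rw [mem_FN, not_le] at hv
      refine (EG_le hγ hε.le hs v).trans ?_
      have h6 : Real.log z ≤ Real.log (nm v) :=
        Real.log_le_log (by linarith) (by exact_mod_cast hv.le)
      have h7 : (0 : ℝ) ≤ 3 * N * (nm v : ℝ) ^ (-(1 + ε)) := by positivity
      calc 3 * N * (nm v : ℝ) ^ (-(1 + ε)) = 3 * N * (nm v : ℝ) ^ (-(1 + ε)) * 1 := by ring
        _ ≤ 3 * N * (nm v : ℝ) ^ (-(1 + ε)) * (Real.log (nm v) / Real.log z) :=
            mul_le_mul_of_nonneg_left ((one_le_div hlz).2 h6) h7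
        _ = _ := by ring
  have h8 := tsum_of_norm_bounded (hsum.mul_left (3 * N / Real.log z)).hasSum h5
  refine h8.trans ?_
  rw [tsum_mul_left]
  have h9 : ∑' v : HeightOneSpectrum (𝓞 K), Real.log (nm v) * (nm v : ℝ) ^ (-(1 + ε)) ≤ C / ε := by
    rw [le_div_iff₀ hε, mul_comm]
    exact hC
  calc 3 * N / Real.log z * ∑' v : HeightOneSpectrum (𝓞 K), Real.log (nm v) * (nm v : ℝ) ^ (-(1 + ε))
      ≤ 3 * N / Real.log z * (C / ε) := mul_le_mul_of_nonneg_left h9 (by positivity)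
    _ = _ := by ring

end nf

end Pool.Agent.Y770.EP
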