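import Mathlib

/-!
# Moments of sums of periodic functions with mean value zero, modulo many primes
-/

set_option autoImplicit false

open Finset

namespace Pool.Agent.Y770.EP

/-- sum over a product of two ranges -/
lemma sum_range_mul (G : ℕ → ℂ) (M q : ℕ) :
    ∑ n ∈ range (M * q), G n = ∑ j ∈ range q, ∑ r ∈ range M, G (M * j + r) := by
  induction q with
  | zero => simp
  | succ q ih => rw [Nat.mul_succ, Finset.sum_range_add, ih, Finset.sum_range_succ]

/-- a periodic function with mean value zero on progressions with coprime difference -/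
lemma mean_ap {q : ℕ} (hq : 1 ≤ q) {f : ℤ → ℂ} (hf : Function.Periodic f (q : ℤ))
    (h0 : ∑ j ∈ range q, f j = 0) {M : ℕ} (hM : M.Coprime q) (c : ℤ) :
    ∑ j ∈ range q, f (c + (M : ℤ) * (j : ℤ)) = 0 := by
  have : NeZero q := ⟨by omega⟩
  set F : ZMod q → ℂ := fun x => f (x.val : ℤ) with hF
  have hfF : ∀ n : ℤ, f n = F (n : ZMod q) := by
    intro n
    have h1 : f (n % q) = f n := by
      have e1 : f (n % (q : ℤ) + (n / (q : ℤ)) * (q : ℤ)) = f (n % (q : ℤ)) :=
        hf.int_mul (n / (q : ℤ)) (n % (q : ℤ))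
      have e2 : n % (q : ℤ) + (n / (q : ℤ)) * (q : ℤ) = n := by
        rw [mul_comm]; exact Int.emod_add_mul_ediv n q
      rw [e2] at e1
      exact e1.symm
    rw [← h1, hF]
    dsimp only
    congr 1
    rw [ZMod.val_intCast]
  have key : ∀ G : ZMod q → ℂ, ∑ j ∈ range q, G ((j : ℕ) : ZMod q) = ∑ x : ZMod q, G x := by
    intro G
    refine Finset.sum_nbij' (fun j : ℕ => (j : ZMod q)) (fun x => x.val) ?_ ?_ ?_ ?_ ?_
    · intro j _; exact mem_univ _
    · intro x _; exact mem_range.2 (ZMod.val_lt x)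
    · intro j hj; exact ZMod.val_cast_of_lt (mem_range.1 hj)
    · intro x _; exact ZMod.natCast_zmod_val x
    · intro j _; rfl
  have h1 : ∑ x : ZMod q, F x = 0 := by
    rw [← key, ← h0]
    refine Finset.sum_congr rfl fun j _ => ?_
    rw [hfF]
    congr 1
    push_cast
    rfl
  have h2 : ∑ j ∈ range q, f (c + (M : ℤ) * (j : ℤ)) = ∑ x : ZMod q, F ((c : ZMod q) + (M : ZMod q) * x) := by
    rw [← key]
    refine Finset.sum_congr rfl fun j _ => ?_
    rw [hfF]
    congr 1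
    push_cast
    rfl
  rw [h2, ← h1]
  have hu : IsUnit (M : ZMod q) := (ZMod.isUnit_iff_coprime M q).2 hM
  obtain ⟨u, hu⟩ := hu
  refine Fintype.sum_bijective (fun x => (c : ZMod q) + (M : ZMod q) * x) ?_ _ _ fun x => rfl
  rw [← hu]
  exact (Equiv.addLeft (c : ZMod q)).bijective.comp u.mulLeft.bijective

/-- incomplete sums of a periodic function with mean value zero -/
lemma norm_sum_per {N : ℕ} (hN : 1 ≤ N) {F : ℤ → ℂ}
    (h0 : ∀ c : ℤ, ∑ n ∈ range N, F (c + n) = 0) {C : ℝ} (hC : ∀ n, ‖F n‖ ≤ C) (h : ℤ) (T : ℕ) :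
    ‖∑ n ∈ range T, F (h + n)‖ ≤ N * C := by
  have hC0 : 0 ≤ C := (norm_nonneg _).trans (hC 0)
  have h1 : ∀ u : ℕ, ∑ n ∈ range (N * u), F (h + n) = 0 := by
    intro u
    rw [sum_range_mul (fun n => F (h + n))]
    refine Finset.sum_eq_zero fun j _ => ?_
    rw [← h0 (h + N * j)]
    refine Finset.sum_congr rfl fun r _ => ?_
    congr 1
    push_cast
    ring
  rw [← Nat.div_add_mod T N, Finset.sum_range_add, h1, zero_add]
  refine (norm_sum_le _ _).trans ?_
  refine (Finset.sum_le_card_nsmul _ _ C fun n _ => hC _).trans ?_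
  rw [card_range, nsmul_eq_mul]
  have : (T % N : ℕ) ≤ N := (Nat.mod_lt _ hN).le
  exact mul_le_mul_of_nonneg_right (by exact_mod_cast this) hC0

/-- conjugation for one of the two values of the sign -/
noncomputable def cj (b : Bool) (z : ℂ) : ℂ := if b then z else (starRingEnd ℂ) z

lemma norm_cj (b : Bool) (z : ℂ) : ‖cj b z‖ = ‖z‖ := by
  unfold cj
  split_ifs
  · rfl
  · exact RCLike.norm_conj z

lemma cj_sum (b : Bool) {ι : Type*} (s : Finset ι) (f : ι → ℂ) :
    cj b (∑ i ∈ s, f i) = ∑ i ∈ s, cj b (f i) := by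
  unfold cj
  split_ifs
  · rfl
  · exact map_sum _ _ _

lemma prod_cj (k : ℕ) (z : ℂ) : ∏ i : Fin k × Bool, cj i.2 z = ((‖z‖ ^ (2 * k) : ℝ) : ℂ) := by
  rw [Fintype.prod_prod_type]
  simp only [Fintype.prod_bool]
  rw [Finset.prod_const, card_univ, Fintype.card_fin]
  unfold cj
  simp only [if_true, Bool.false_eq_true, if_false]
  rw [Complex.mul_conj', ← pow_mul]
  push_cast
  rfl

/-- the number of the tuples in which every value is taken at least twice -/
lemma card_good {ι : Type*} [Fintype ι] [DecidableEq ι] (k : ℕ) (hk : 1 ≤ k)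
    (hι : Fintype.card ι = 2 * k) (P : Finset ℕ) :
    ((Fintype.piFinset fun _ : ι => P).filter fun t => ∀ i, ∃ i', i' ≠ i ∧ t i' = t i).card ≤
      P.card ^ k * k ^ (2 * k) := by
  classical
  have hne : Nonempty ι := by
    rw [← Fintype.card_pos_iff]; omega
  have hsub : ((Fintype.piFinset fun _ : ι => P).filter fun t => ∀ i, ∃ i', i' ≠ i ∧ t i' = t i) ⊆
      ((Fintype.piFinset fun _ : Fin k => P) ×ˢ (univ : Finset (ι → Fin k))).image
        fun eh => fun i => eh.1 (eh.2 i) := by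
    intro t ht
    rw [mem_filter, Fintype.mem_piFinset] at ht
    obtain ⟨ht1, ht2⟩ := ht
    set I := (univ : Finset ι).image t with hI
    have hcard : 2 * I.card ≤ 2 * k := by
      have h1 := Finset.mul_card_image_le_card (s := (univ : Finset ι)) (f := t) (n := 2) (fun a ha => by
        obtain ⟨i, _, hi⟩ := mem_image.1 ha
        obtain ⟨i', hi', hi2⟩ := ht2 i
        rw [Nat.succ_le_iff, Finset.one_lt_card]
        exact ⟨i, by simp [hi], i', by simp [hi2, hi], hi'.symm⟩)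
      rwa [card_univ, hι] at h1
    have hIk : I.card ≤ k := by omega
    obtain ⟨i0⟩ := hne
    have hmem : ∀ i, t i ∈ I := fun i => mem_image_of_mem t (mem_univ i)
    refine mem_image.2 ⟨(fun j => if h : (j : ℕ) < I.card then (I.equivFin.symm ⟨j, h⟩ : ℕ) else t i0,
      fun i => ⟨(I.equivFin ⟨t i, hmem i⟩ : ℕ), lt_of_lt_of_le (Fin.is_lt _) hIk⟩), ?_, ?_⟩
    · rw [mem_product]
      refine ⟨Fintype.mem_piFinset.2 fun j => ?_, mem_univ _⟩
      dsimp only
      split_ifs with h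
      · have h3 := (I.equivFin.symm ⟨j, h⟩).2
        obtain ⟨i, _, hi⟩ := mem_image.1 h3
        rw [← hi]
        exact ht1 i
      · exact ht1 i0
    · funext i
      dsimp only
      rw [dif_pos (Fin.is_lt _)]
      simp
  refine (card_le_card hsub).trans (card_image_le.trans ?_)
  rw [card_product, Fintype.card_piFinset, Finset.prod_const, card_univ, Fintype.card_fin, card_univ,
    Fintype.card_fun, Fintype.card_fin, hι]

/-- **The moment inequality.** -/
theorem moment {P : Finset ℕ} {Q : ℕ} (hP : ∀ p ∈ P, p.Prime ∧ p ≤ Q) {g : ℕ → ℤ → ℂ} {B : ℝ}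
    (hB0 : 0 ≤ B) (hper : ∀ p ∈ P, Function.Periodic (g p) (p : ℤ))
    (hmean : ∀ p ∈ P, ∑ j ∈ range p, g p j = 0) (hB : ∀ p ∈ P, ∀ n, ‖g p n‖ ≤ B) (k : ℕ) (hk : 1 ≤ k)
    (h : ℤ) (T : ℕ) :
    ∑ n ∈ range T, ‖∑ p ∈ P, g p (h + n)‖ ^ (2 * k) ≤
      T * ((P.card : ℝ) ^ k * (k : ℝ) ^ (2 * k)) * B ^ (2 * k) +
        (P.card : ℝ) ^ (2 * k) * ((Q : ℝ) ^ (2 * k) * B ^ (2 * k)) := by
  classical
  set A := Fintype.piFinset fun _ : Fin k × Bool => P with hA
  have hcard : Fintype.card (Fin k × Bool) = 2 * k := by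
    rw [Fintype.card_prod, Fintype.card_fin, Fintype.card_bool, mul_comm]
  set Φ : (Fin k × Bool → ℕ) → ℤ → ℂ := fun t n => ∏ i, cj i.2 (g (t i) n) with hΦ
  have hexp : ∀ n : ℤ, ((‖∑ p ∈ P, g p n‖ ^ (2 * k) : ℝ) : ℂ) = ∑ t ∈ A, Φ t n := by
    intro n
    rw [← prod_cj]
    simp_rw [cj_sum]
    rw [Finset.prod_univ_sum]
  have hΦB : ∀ t ∈ A, ∀ n, ‖Φ t n‖ ≤ B ^ (2 * k) := by
    intro t ht n
    rw [hΦ]
    dsimp only
    rw [norm_prod]
    have h1 : ∀ i ∈ (univ : Finset (Fin k × Bool)), ‖cj i.2 (g (t i) n)‖ ≤ B := fun i _ => by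
      rw [norm_cj]
      exact hB _ ((Fintype.mem_piFinset.1 ht) i) n
    refine (Finset.prod_le_prod (fun i _ => norm_nonneg _) h1).trans (le_of_eq ?_)
    rw [Finset.prod_const, card_univ, hcard]
  -- the sum over `n` for one tuple
  have hbad : ∀ t ∈ A, (¬ ∀ i, ∃ i', i' ≠ i ∧ t i' = t i) →
      ‖∑ n ∈ range T, Φ t (h + n)‖ ≤ (Q : ℝ) ^ (2 * k) * B ^ (2 * k) := by
    intro t ht hbad
    push Not at hbad
    obtain ⟨i0, hi0⟩ := hbad
    have htP : ∀ i, t i ∈ P := Fintype.mem_piFinset.1 ht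
    set q := t i0 with hq
    have hqp := (hP q (htP i0)).1
    set M := ∏ i ∈ univ.erase i0, t i with hM
    have hMq : M.Coprime q := by
      refine Nat.Coprime.prod_left fun i hi => ?_
      exact (Nat.coprime_primes (hP _ (htP i)).1 hqp).2 (hi0 i (mem_erase.1 hi).1)
    have hM1 : 1 ≤ M := Finset.prod_pos fun i _ => (hP _ (htP i)).1.pos
    have hN1 : 1 ≤ M * q := Nat.mul_pos hM1 hqp.pos
    have hNQ : M * q ≤ Q ^ (2 * k) := by
      rw [hM, Finset.prod_erase_mul _ _ (mem_univ i0)]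
      refine (Finset.prod_le_pow_card _ _ Q fun i _ => (hP _ (htP i)).2).trans ?_
      rw [card_univ, hcard]
    -- the factors
    have hΦeq : ∀ n, Φ t n = (∏ i ∈ univ.erase i0, cj i.2 (g (t i) n)) * cj i0.2 (g q n) := by
      intro n
      rw [hΦ]
      dsimp only
      rw [Finset.prod_erase_mul _ _ (mem_univ i0)]
    have hRper : Function.Periodic (fun n => ∏ i ∈ univ.erase i0, cj i.2 (g (t i) n)) (M : ℤ) := by
      intro n
      refine Finset.prod_congr rfl fun i hi => ?_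
      congr 1
      obtain ⟨u, hu⟩ : t i ∣ M := Finset.dvd_prod_of_mem _ hi
      have h2 : (M : ℤ) = (u : ℤ) * (t i : ℤ) := by rw [hu]; push_cast; ring
      rw [h2]
      have h3 := (hper _ (htP i)).int_mul u n
      exact h3
    have hgper : Function.Periodic (fun n => cj i0.2 (g q n)) (q : ℤ) := fun n => by
      dsimp only
      rw [hper q (htP i0) n]
    have hg0 : ∑ j ∈ range q, cj i0.2 (g q j) = 0 := by
      rw [← cj_sum, hmean q (htP i0)]
      unfold cj
      split_ifs <;> simp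
    have hzero : ∀ c : ℤ, ∑ n ∈ range (M * q), Φ t (c + n) = 0 := by
      intro c
      rw [sum_range_mul (fun n => Φ t (c + n)), Finset.sum_comm]
      refine Finset.sum_eq_zero fun r _ => ?_
      have h4 : ∀ j ∈ range q, Φ t (c + ((M * j + r : ℕ) : ℤ)) =
          (∏ i ∈ univ.erase i0, cj i.2 (g (t i) (c + r))) *
            cj i0.2 (g q (c + r + (M : ℤ) * (j : ℤ))) := by
        intro j _
        rw [hΦeq]
        have e1 : c + ((M * j + r : ℕ) : ℤ) = c + r + (j : ℤ) * (M : ℤ) := by push_cast; ring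
        have e2 : (∏ i ∈ univ.erase i0, cj i.2 (g (t i) (c + r + (j : ℤ) * (M : ℤ)))) =
          ∏ i ∈ univ.erase i0, cj i.2 (g (t i) (c + r)) := hRper.int_mul (j : ℤ) (c + r)
        rw [e1, e2, mul_comm (j : ℤ)]
      rw [Finset.sum_congr rfl h4, ← Finset.mul_sum,
        mean_ap hqp.one_le hgper hg0 hMq (c + r), mul_zero]
    refine (norm_sum_per hN1 hzero (hΦB t ht) h T).trans ?_
    exact mul_le_mul_of_nonneg_right (by exact_mod_cast hNQ) (by positivity)
  have hgood : ∀ t ∈ A, ‖∑ n ∈ range T, Φ t (h + n)‖ ≤ T * B ^ (2 * k) := by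
    intro t ht
    refine (_root_.norm_sum_le _ _).trans ?_
    refine (Finset.sum_le_card_nsmul _ _ _ fun n _ => hΦB t ht _).trans ?_
    rw [card_range, nsmul_eq_mul]
  have hmain : ((∑ n ∈ range T, ‖∑ p ∈ P, g p (h + n)‖ ^ (2 * k) : ℝ) : ℂ) =
      ∑ t ∈ A, ∑ n ∈ range T, Φ t (h + n) := by
    rw [Finset.sum_comm]
    push_cast
    refine Finset.sum_congr rfl fun n _ => ?_
    rw [← hexp]
    push_cast
    rfl
  have hle : ∑ n ∈ range T, ‖∑ p ∈ P, g p (h + n)‖ ^ (2 * k) ≤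
      ∑ t ∈ A, ‖∑ n ∈ range T, Φ t (h + n)‖ := by
    have h1 : ∑ n ∈ range T, ‖∑ p ∈ P, g p (h + n)‖ ^ (2 * k) =
        ‖((∑ n ∈ range T, ‖∑ p ∈ P, g p (h + n)‖ ^ (2 * k) : ℝ) : ℂ)‖ := by
      rw [Complex.norm_real, Real.norm_of_nonneg]
      exact Finset.sum_nonneg fun n _ => by positivity
    rw [h1, hmain]
    exact _root_.norm_sum_le _ _
  refine hle.trans ?_
  rw [← Finset.sum_filter_add_sum_filter_not A fun t => ∀ i, ∃ i', i' ≠ i ∧ t i' = t i]
  refine add_le_add ?_ ?_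
  · refine (Finset.sum_le_card_nsmul _ _ (T * B ^ (2 * k)) fun t ht =>
      hgood t (mem_filter.1 ht).1).trans ?_
    rw [nsmul_eq_mul]
    have h1 := card_good k hk hcard P
    have h2 : (((A.filter fun t => ∀ i, ∃ i', i' ≠ i ∧ t i' = t i).card : ℕ) : ℝ) ≤
        (P.card : ℝ) ^ k * (k : ℝ) ^ (2 * k) := by exact_mod_cast h1
    calc _ ≤ ((P.card : ℝ) ^ k * (k : ℝ) ^ (2 * k)) * (T * B ^ (2 * k)) :=
          mul_le_mul_of_nonneg_right h2 (by positivity)
      _ = _ := by ring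
  · refine (Finset.sum_le_card_nsmul _ _ ((Q : ℝ) ^ (2 * k) * B ^ (2 * k)) fun t ht =>
      hbad t (mem_filter.1 ht).1 (mem_filter.1 ht).2).trans ?_
    rw [nsmul_eq_mul]
    refine mul_le_mul_of_nonneg_right ?_ (by positivity)
    have h1 : (A.filter fun t => ¬ ∀ i, ∃ i', i' ≠ i ∧ t i' = t i).card ≤ P.card ^ (2 * k) := by
      refine (card_filter_le _ _).trans (le_of_eq ?_)
      rw [hA, Fintype.card_piFinset, Finset.prod_const, card_univ, hcard]
    exact_mod_cast h1

end Pool.Agent.Y770.EP
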