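import Pool.Agent.Y770.EP.Fac

/-!
# The Euler products of almost all curves of a family in the critical strip
-/

set_option autoImplicit false

open Finset NumberField IsDedekindDomain
open Pool.Agent.H921R2.TatePole (nm two_le_nm below deg nm_eq nm_summable fiber_card_le
  summable_primes_rpow card_above)

namespace Pool.Agent.Y770.EP

section nf
variable {K : Type} [Field K] [NumberField K] {N : ℕ}

lemma hfin (x : ℕ) : {v : HeightOneSpectrum (𝓞 K) | nm v ≤ x}.Finite := by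
  have h1 : Summable fun v : HeightOneSpectrum (𝓞 K) => (nm v : ℝ) ^ (-(2 : ℝ)) :=
    nm_summable (by norm_num)
  have hx0 : (0 : ℝ) < (x + 1 : ℕ) := by exact_mod_cast Nat.succ_pos x
  have h2 : ∀ᶠ v in Filter.cofinite, (nm v : ℝ) ^ (-(2 : ℝ)) < (((x + 1 : ℕ) : ℝ)) ^ (-(2 : ℝ)) :=
    h1.tendsto_cofinite_zero.eventually (gt_mem_nhds (by positivity))
  refine Set.Finite.subset h2 fun v hv => ?_
  have hv' : nm v ≤ x := hv
  show ¬ ((nm v : ℝ) ^ (-(2 : ℝ)) < (((x + 1 : ℕ) : ℝ)) ^ (-(2 : ℝ)))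
  rw [not_lt]
  exact Real.rpow_le_rpow_of_nonpos (nm_pos' v) (by exact_mod_cast (by omega : nm v ≤ x + 1)) (by norm_num)

/-- the primes of norm at most `x` -/
noncomputable def FN (K : Type) [Field K] [NumberField K] (x : ℕ) :
    Finset (HeightOneSpectrum (𝓞 K)) := (hfin x).toFinset

lemma mem_FN {x : ℕ} {v : HeightOneSpectrum (𝓞 K)} : v ∈ FN K x ↔ nm v ≤ x := by
  unfold FN
  rw [Set.Finite.mem_toFinset]
  rfl

/-- the primes of norm in `(y, x]` -/
noncomputable def GG (K : Type) [Field K] [NumberField K] (y x : ℕ) :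
    Finset (HeightOneSpectrum (𝓞 K)) := (FN K x).filter fun v => y < nm v

lemma mem_GG {y x : ℕ} {v : HeightOneSpectrum (𝓞 K)} : v ∈ GG K y x ↔ y < nm v ∧ nm v ≤ x := by
  unfold GG
  rw [mem_filter, mem_FN, and_comm]

/-- the primes of norm `p` -/
noncomputable def FP (K : Type) [Field K] [NumberField K] (p : ℕ) :
    Finset (HeightOneSpectrum (𝓞 K)) := (FN K p).filter fun v => nm v = p

lemma mem_FP {p : ℕ} {v : HeightOneSpectrum (𝓞 K)} : v ∈ FP K p ↔ nm v = p := by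
  unfold FP
  rw [mem_filter, mem_FN]
  exact ⟨fun h => h.2, fun h => ⟨h.le, h⟩⟩

lemma card_FP {p : ℕ} (hp : p.Prime) : (FP K p).card ≤ Module.finrank ℚ K := by
  refine card_above ⟨p, hp⟩ _ fun v hv => ?_
  rw [mem_FP] at hv
  apply Subtype.ext
  show (Ideal.absNorm v.asIdeal).minFac = p
  have : Ideal.absNorm v.asIdeal = p := hv
  rw [this]
  exact hp.minFac_eq

lemma nm_mem (v : HeightOneSpectrum (𝓞 K)) : ((nm v : ℕ) : 𝓞 K) ∈ v.asIdeal :=
  Ideal.absNorm_mem v.asIdeal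

lemma coprime_notMem {v : HeightOneSpectrum (𝓞 K)} {m : ℕ} (h : m.Coprime (nm v)) :
    ((m : ℕ) : 𝓞 K) ∉ v.asIdeal := by
  intro hm
  have h1 : IsCoprime (m : ℤ) (nm v : ℤ) := Nat.isCoprime_iff_coprime.2 h
  obtain ⟨x, y, hxy⟩ := h1
  apply v.isPrime.ne_top
  rw [Ideal.eq_top_iff_one]
  have h2 : (1 : 𝓞 K) = (x : 𝓞 K) * ((m : ℕ) : 𝓞 K) + (y : 𝓞 K) * ((nm v : ℕ) : 𝓞 K) := by
    have := congrArg (fun z : ℤ => (z : 𝓞 K)) hxy
    push_cast at this
    exact this.symm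
  rw [h2]
  exact v.asIdeal.add_mem (v.asIdeal.mul_mem_left _ hm) (v.asIdeal.mul_mem_left _ (nm_mem v))

/-- the coefficients -/
noncomputable def gp (a b : 𝓞 K) (γ : HeightOneSpectrum (𝓞 K) → Fin N → ℂ) (p : ℕ) (n : ℤ) : ℂ :=
  ∑ v ∈ FP K p, (tv a (b + (n : 𝓞 K)) v : ℂ) * ∑ j, γ v j

lemma tv_le_prime (a b : 𝓞 K) {v : HeightOneSpectrum (𝓞 K)} (hp : (nm v).Prime) : |tv a b v| ≤ 2 := by
  refine tv_le a b v ?_
  by_cases h : nm v = 2
  · exact Or.inl h
  · right
    have h1 : (2 : ℕ).Coprime (nm v) := (Nat.coprime_primes Nat.prime_two hp).2 (Ne.symm h)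
    have := coprime_notMem h1
    exact_mod_cast this

omit [NumberField K] in
lemma norm_sum_γ {γ : HeightOneSpectrum (𝓞 K) → Fin N → ℂ} (hγ : ∀ v j, ‖γ v j‖ ≤ 1)
    (v : HeightOneSpectrum (𝓞 K)) : ‖∑ j, γ v j‖ ≤ N := by
  refine (norm_sum_le _ _).trans ?_
  refine (Finset.sum_le_card_nsmul _ _ 1 fun j _ => hγ v j).trans ?_
  rw [card_univ, Fintype.card_fin, nsmul_eq_mul, mul_one]

lemma sys_gp (a b : 𝓞 K) {γ : HeightOneSpectrum (𝓞 K) → Fin N → ℂ} (hγ : ∀ v j, ‖γ v j‖ ≤ 1) :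
    Sys (Module.finrank ℚ K * (2 * N) + 1) (gp a b γ) := by
  refine ⟨fun p hp n => ?_, fun p hp => ?_, fun p hp n => ?_⟩
  · unfold gp
    refine Finset.sum_congr rfl fun v hv => ?_
    rw [mem_FP] at hv
    have h1 : tv a (b + ((n + (p : ℤ) : ℤ) : 𝓞 K)) v = tv a (b + (n : 𝓞 K)) v := by
      refine tv_congr a ?_
      have h2 := nm_mem v
      rw [hv] at h2
      have h3 : b + ((n + (p : ℤ) : ℤ) : 𝓞 K) - (b + (n : 𝓞 K)) = ((p : ℕ) : 𝓞 K) := by
        push_cast; ring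
      rw [h3]
      exact h2
    rw [h1]
  · unfold gp
    rw [Finset.sum_comm]
    refine Finset.sum_eq_zero fun v hv => ?_
    rw [mem_FP] at hv
    rw [← Finset.sum_mul]
    have h1 := tv_mean a b hp hv
    have h2 := congrArg Complex.ofReal h1
    rw [Complex.ofReal_sum, Complex.ofReal_zero] at h2
    rw [h2, zero_mul]
  · unfold gp
    refine (norm_sum_le _ _).trans ?_
    refine (Finset.sum_le_card_nsmul _ _ (2 * N : ℝ) fun v hv => ?_).trans ?_
    · rw [mem_FP] at hv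
      rw [norm_mul, Complex.norm_real]
      exact mul_le_mul (tv_le_prime a _ (by rw [hv]; exact hp)) (norm_sum_γ hγ v) (norm_nonneg _)
        (by norm_num)
    · rw [nsmul_eq_mul]
      have h1 : ((FP K p).card : ℝ) ≤ Module.finrank ℚ K := by exact_mod_cast card_FP hp
      have h2 : (0 : ℝ) ≤ 2 * N := by positivity
      nlinarith

/-- the sums over the primes of degree one as sums over the rational primes -/
lemma sum_deg_one (a b : 𝓞 K) (γ : HeightOneSpectrum (𝓞 K) → Fin N → ℂ) (n : ℤ) (s : ℂ) (y x : ℕ) :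
    ∑ v ∈ (GG K y x).filter fun v => (nm v).Prime,
      (tv a (b + (n : 𝓞 K)) v : ℂ) * (∑ j, γ v j) * (nm v : ℂ) ^ (-s) =
    SP (fun p => gp a b γ p n) s y x := by
  classical
  unfold SP
  rw [← Finset.sum_fiberwise_of_maps_to (g := fun v : HeightOneSpectrum (𝓞 K) => nm v)
    (t := PR y x)]
  · refine Finset.sum_congr rfl fun p hp => ?_
    obtain ⟨⟨hp1, hp2⟩, hpp⟩ := mem_PR.1 hp
    unfold gp
    rw [Finset.sum_mul]
    refine Finset.sum_congr ?_ fun v hv => ?_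
    · ext v
      simp only [mem_filter, mem_GG, mem_FP]
      constructor
      · rintro ⟨_, h⟩; exact h
      · intro h
        rw [h]
        exact ⟨⟨⟨hp1, hp2⟩, hpp⟩, rfl⟩
    · rw [mem_FP] at hv
      rw [hv]
  · intro v hv
    rw [mem_filter, mem_GG] at hv
    exact mem_PR.2 hv

/-- the good primes of the curve -/
def GD (a b : 𝓞 K) (v : HeightOneSpectrum (𝓞 K)) : Prop := 6 * (4 * a ^ 3 + 27 * b ^ 2) ∉ v.asIdeal

lemma GD.tv_le {a b : 𝓞 K} {v : HeightOneSpectrum (𝓞 K)} (h : GD a b v) : |tv a b v| ≤ 2 := by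
  refine Pool.Agent.Y770.EP.tv_le a b v (Or.inr fun h2 => h ?_)
  have : (6 : 𝓞 K) * (4 * a ^ 3 + 27 * b ^ 2) = (3 * (4 * a ^ 3 + 27 * b ^ 2)) * 2 := by ring
  rw [this]
  exact v.asIdeal.mul_mem_left _ h2

/-- finite sums over primes of large norm -/
lemma sum_large {x θ : ℝ} (hθ : 0 ≤ θ) {f : HeightOneSpectrum (𝓞 K) → ℝ}
    (hf0 : ∀ v, 0 ≤ f v) (hf : Summable f) {g : HeightOneSpectrum (𝓞 K) → ℝ}
    (hg : ∀ v, g v ≤ x * ((nm v : ℝ) ^ (-θ) * f v)) (hx : 0 ≤ x) {y : ℕ} (hy : 1 ≤ y)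
    (F : Finset (HeightOneSpectrum (𝓞 K))) (hF : ∀ v ∈ F, y < nm v) :
    ∑ v ∈ F, g v ≤ x * (∑' v, f v) * (y : ℝ) ^ (-θ) := by
  have hy0 : (0 : ℝ) < y := by exact_mod_cast hy
  calc ∑ v ∈ F, g v ≤ ∑ v ∈ F, x * ((y : ℝ) ^ (-θ) * f v) := by
        refine Finset.sum_le_sum fun v hv => (hg v).trans ?_
        have h1 : (nm v : ℝ) ^ (-θ) ≤ (y : ℝ) ^ (-θ) :=
          Real.rpow_le_rpow_of_nonpos hy0 (by exact_mod_cast (hF v hv).le) (by linarith)
        exact mul_le_mul_of_nonneg_left (mul_le_mul_of_nonneg_right h1 (hf0 v)) hx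
    _ = x * ((y : ℝ) ^ (-θ)) * ∑ v ∈ F, f v := by
        rw [Finset.mul_sum]
        exact Finset.sum_congr rfl fun v _ => by ring
    _ ≤ x * ((y : ℝ) ^ (-θ)) * ∑' v, f v :=
        mul_le_mul_of_nonneg_left (hf.sum_le_tsum _ fun v _ => hf0 v) (by positivity)
    _ = _ := by ring

/-- the constants -/
noncomputable def Z1 (K : Type) [Field K] [NumberField K] (δ : ℝ) : ℝ :=
  ∑' v : HeightOneSpectrum (𝓞 K), (nm v : ℝ) ^ (-(1 + δ / 2))

/-- the constants -/
noncomputable def Z2 (K : Type) [Field K] [NumberField K] (δ : ℝ) : ℝ :=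
  ∑' v : HeightOneSpectrum (𝓞 K), if (nm v).Prime then (0 : ℝ) else (nm v : ℝ) ^ (-(1 / 2 + δ / 2))

lemma Z1_nonneg (δ : ℝ) : 0 ≤ Z1 K δ := tsum_nonneg fun v => by positivity

lemma Z2_nonneg (δ : ℝ) : 0 ≤ Z2 K δ := tsum_nonneg fun v => by split_ifs <;> positivity

lemma half_of_four {v : HeightOneSpectrum (𝓞 K)} {σ : ℝ} (hv : 4 ≤ nm v) (hσ : 1 ≤ σ) :
    (nm v : ℝ) ^ (1 / 2 - σ) ≤ 1 / 2 := by
  have h4 : (4 : ℝ) ≤ nm v := by exact_mod_cast hv
  calc (nm v : ℝ) ^ (1 / 2 - σ) ≤ (nm v : ℝ) ^ (-(1 / 2) : ℝ) :=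
        Real.rpow_le_rpow_of_exponent_le (by linarith) (by linarith)
    _ ≤ (4 : ℝ) ^ (-(1 / 2) : ℝ) := Real.rpow_le_rpow_of_nonpos (by norm_num) h4 (by norm_num)
    _ = 1 / 2 := by
        rw [Real.rpow_neg (by norm_num), ← Real.sqrt_eq_rpow,
          show (4 : ℝ) = 2 ^ 2 by norm_num, Real.sqrt_sq (by norm_num)]
        norm_num

open Classical in
/-- **The logarithm of a piece of the Euler product.** -/
theorem strip_log {a b : 𝓞 K} {γ : HeightOneSpectrum (𝓞 K) → Fin N → ℂ} (hγ : ∀ v j, ‖γ v j‖ ≤ 1)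
    {δ c : ℝ} (hδ : 0 < δ) {T : ℕ} {n : ℤ}
    (hG : Good δ c T fun p => gp a b γ p n) {s : ℂ} (hs : 1 + δ ≤ s.re)
    (hs2 : |s.im| ≤ (T : ℝ) ^ c) {y x : ℕ} (hy4 : 4 ≤ y) (hy : (Real.log T) ^ (4 / δ) ≤ y)
    (hx : (x : ℝ) ≤ (T : ℝ) ^ c) :
    ‖∑ v ∈ (GG K y x).filter fun v => GD a (b + (n : 𝓞 K)) v, EL a (b + (n : 𝓞 K)) γ s v‖ ≤
      (1 + (3 * N * Z1 K δ + 2 * N * Z2 K δ)) * (y : ℝ) ^ (-(δ / 16)) := by
  classical
  set B : 𝓞 K := b + (n : 𝓞 K) with hB
  set h : HeightOneSpectrum (𝓞 K) → ℂ := fun v =>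
    (tv a B v : ℂ) * (∑ j, γ v j) * (nm v : ℂ) ^ (-(s - 1 / 2)) with hh
  have hy1 : 1 ≤ y := by omega
  have hyr : (1 : ℝ) ≤ y := by exact_mod_cast hy1
  have hnormq : ∀ v : HeightOneSpectrum (𝓞 K), ‖(nm v : ℂ) ^ (-(s - 1 / 2))‖ =
      (nm v : ℝ) ^ (1 / 2 - s.re) := by
    intro v
    rw [Complex.norm_natCast_cpow_of_pos (by have := two_le_nm v; omega)]
    congr 1
    simp
  have hq1 : ∀ v : HeightOneSpectrum (𝓞 K), (1 : ℝ) ≤ nm v := fun v => by
    have := two_le_nm v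
    exact_mod_cast (by omega : 1 ≤ nm v)
  -- the main sum
  have hmain : ∑ v ∈ (GG K y x).filter fun v => (nm v).Prime, h v =
      SP (fun p => gp a b γ p n) (s - 1 / 2) y x := sum_deg_one a b γ n (s - 1 / 2) y x
  have hmain2 : ‖∑ v ∈ (GG K y x).filter fun v => (nm v).Prime, h v‖ ≤ (y : ℝ) ^ (-(δ / 16)) := by
    rw [hmain]
    refine hG (s - 1 / 2) ?_ ?_ y x hy hx
    · simp only [Complex.sub_re, Complex.div_ofNat_re, Complex.one_re]
      linarith
    · simpa using hs2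
  -- the first error
  have herr1 : ‖∑ v ∈ (GG K y x).filter fun v => GD a B v, (EL a B γ s v - h v)‖ ≤
      2 * N * Z1 K δ * (y : ℝ) ^ (-(δ / 2)) := by
    refine (norm_sum_le _ _).trans ?_
    refine (Finset.sum_le_sum (g := fun v : HeightOneSpectrum (𝓞 K) =>
      2 * N * (nm v : ℝ) ^ (1 - 2 * s.re)) fun v hv => ?_).trans ?_
    · rw [mem_filter, mem_GG] at hv
      exact EL_sub hv.2.tv_le hγ (half_of_four (by omega) (by linarith))
    · refine sum_large (x := 2 * N) (θ := δ / 2) (by positivity) (fun v => by positivity)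
        (nm_summable (x := 1 + δ / 2) (by linarith)) (fun v => ?_) (by positivity) hy1 _ fun v hv => ?_
      · refine mul_le_mul_of_nonneg_left ?_ (by positivity)
        rw [← Real.rpow_add (nm_pos' v)]
        exact Real.rpow_le_rpow_of_exponent_le (hq1 v) (by linarith)
      · rw [mem_filter, mem_GG] at hv
        exact hv.1.1
  -- the primes of higher degree
  have herr2 : ‖∑ v ∈ ((GG K y x).filter fun v => GD a B v).filter fun v => ¬ (nm v).Prime, h v‖ ≤
      2 * N * Z2 K δ * (y : ℝ) ^ (-(δ / 2)) := by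
    refine (norm_sum_le _ _).trans ?_
    refine (Finset.sum_le_sum (g := fun v : HeightOneSpectrum (𝓞 K) =>
      if (nm v).Prime then (0 : ℝ) else 2 * N * (nm v : ℝ) ^ (1 / 2 - s.re)) fun v hv => ?_).trans ?_
    · rw [mem_filter, mem_filter] at hv
      rw [if_neg hv.2, hh]
      dsimp only
      rw [norm_mul, norm_mul, Complex.norm_real, hnormq]
      exact mul_le_mul_of_nonneg_right (mul_le_mul hv.1.2.tv_le (norm_sum_γ hγ v) (norm_nonneg _)
        (by norm_num)) (by positivity)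
    · refine sum_large (x := 2 * N) (θ := δ / 2) (by positivity)
        (fun v => by split_ifs <;> positivity)
        (summable_two (x := 1 / 2 + δ / 2) (by linarith)) (fun v => ?_) (by positivity) hy1 _
        fun v hv => ?_
      · split_ifs with hp
        · simp
        · refine mul_le_mul_of_nonneg_left ?_ (by positivity)
          rw [← Real.rpow_add (nm_pos' v)]
          exact Real.rpow_le_rpow_of_exponent_le (hq1 v) (by linarith)
      · rw [mem_filter, mem_filter, mem_GG] at hv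
        exact hv.1.1.1
  -- the bad primes
  have herr3 : ‖∑ v ∈ ((GG K y x).filter fun v => (nm v).Prime).filter fun v => ¬ GD a B v, h v‖ ≤
      N * Z1 K δ * (y : ℝ) ^ (-(δ / 2)) := by
    refine (norm_sum_le _ _).trans ?_
    refine (Finset.sum_le_sum (g := fun v : HeightOneSpectrum (𝓞 K) =>
      N * (nm v : ℝ) ^ (-(1 / 2) + (1 / 2 - s.re))) fun v hv => ?_).trans ?_
    · rw [mem_filter, mem_filter, mem_GG] at hv
      obtain ⟨⟨⟨h1, h2⟩, h3⟩, h4⟩ := hv
      have h6 : (6 : 𝓞 K) ∉ v.asIdeal := by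
        have h5 : (6 : ℕ).Coprime (nm v) := by
          have e1 : (2 : ℕ).Coprime (nm v) := (Nat.coprime_primes Nat.prime_two h3).2 (by omega)
          have e2 : (3 : ℕ).Coprime (nm v) := (Nat.coprime_primes Nat.prime_three h3).2 (by omega)
          exact Nat.Coprime.mul_left e1 e2
        have := coprime_notMem h5
        exact_mod_cast this
      have h7 : |tv a B v| ≤ 1 / √(nm v) := tv_bad h6 (not_not.1 h4)
      rw [hh]
      dsimp only
      rw [norm_mul, norm_mul, Complex.norm_real, hnormq, Real.rpow_add (nm_pos' v), ← mul_assoc]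
      refine mul_le_mul_of_nonneg_right ?_ (by positivity)
      rw [mul_comm (N : ℝ)]
      refine mul_le_mul (h7.trans (le_of_eq ?_)) (norm_sum_γ hγ v) (norm_nonneg _) (by positivity)
      rw [Real.rpow_neg (nm_pos' v).le, ← Real.sqrt_eq_rpow, one_div]
    · refine sum_large (x := N) (θ := δ / 2) (by positivity) (fun v => by positivity)
        (nm_summable (x := 1 + δ / 2) (by linarith)) (fun v => ?_) (by positivity) hy1 _ fun v hv => ?_
      · refine mul_le_mul_of_nonneg_left ?_ (by positivity)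
        rw [← Real.rpow_add (nm_pos' v)]
        exact Real.rpow_le_rpow_of_exponent_le (hq1 v) (by linarith)
      · rw [mem_filter, mem_filter, mem_GG] at hv
        exact hv.1.1.1
  -- the decomposition
  have hdec : ∑ v ∈ (GG K y x).filter fun v => GD a B v, EL a B γ s v =
      (∑ v ∈ (GG K y x).filter fun v => GD a B v, (EL a B γ s v - h v)) +
      (∑ v ∈ ((GG K y x).filter fun v => GD a B v).filter fun v => ¬ (nm v).Prime, h v) +
      (∑ v ∈ (GG K y x).filter fun v => (nm v).Prime, h v) -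
      ∑ v ∈ ((GG K y x).filter fun v => (nm v).Prime).filter fun v => ¬ GD a B v, h v := by
    have e1 : ∑ v ∈ (GG K y x).filter fun v => GD a B v, h v =
        (∑ v ∈ ((GG K y x).filter fun v => GD a B v).filter fun v => (nm v).Prime, h v) +
        ∑ v ∈ ((GG K y x).filter fun v => GD a B v).filter fun v => ¬ (nm v).Prime, h v :=
      (Finset.sum_filter_add_sum_filter_not _ _ _).symm
    have e2 : ∑ v ∈ (GG K y x).filter fun v => (nm v).Prime, h v =
        (∑ v ∈ ((GG K y x).filter fun v => (nm v).Prime).filter fun v => GD a B v, h v) +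
        ∑ v ∈ ((GG K y x).filter fun v => (nm v).Prime).filter fun v => ¬ GD a B v, h v :=
      (Finset.sum_filter_add_sum_filter_not _ _ _).symm
    have e3 : ((GG K y x).filter fun v => GD a B v).filter (fun v => (nm v).Prime) =
        ((GG K y x).filter fun v => (nm v).Prime).filter fun v => GD a B v := by
      rw [Finset.filter_filter, Finset.filter_filter]
      exact Finset.filter_congr fun v _ => and_comm
    rw [Finset.sum_sub_distrib, e1, e2, e3]
    ring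
  rw [hdec]
  have hy16 : (y : ℝ) ^ (-(δ / 2)) ≤ (y : ℝ) ^ (-(δ / 16)) :=
    Real.rpow_le_rpow_of_exponent_le hyr (by linarith)
  have hz1 := Z1_nonneg (K := K) δ
  have hz2 := Z2_nonneg (K := K) δ
  have f1 : 2 * N * Z1 K δ * (y : ℝ) ^ (-(δ / 2)) ≤ 2 * N * Z1 K δ * (y : ℝ) ^ (-(δ / 16)) :=
    mul_le_mul_of_nonneg_left hy16 (by positivity)
  have f2 : 2 * N * Z2 K δ * (y : ℝ) ^ (-(δ / 2)) ≤ 2 * N * Z2 K δ * (y : ℝ) ^ (-(δ / 16)) :=
    mul_le_mul_of_nonneg_left hy16 (by positivity)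
  have f3 : N * Z1 K δ * (y : ℝ) ^ (-(δ / 2)) ≤ N * Z1 K δ * (y : ℝ) ^ (-(δ / 16)) :=
    mul_le_mul_of_nonneg_left hy16 (by positivity)
  calc _ ≤ _ + _ := norm_sub_le _ _
    _ ≤ (_ + _) + _ := by gcongr; exact norm_add_le _ _
    _ ≤ ((_ + _) + _) + _ := by gcongr; exact norm_add_le _ _
    _ ≤ ((2 * N * Z1 K δ * (y : ℝ) ^ (-(δ / 16)) + 2 * N * Z2 K δ * (y : ℝ) ^ (-(δ / 16))) +
          (y : ℝ) ^ (-(δ / 16))) + N * Z1 K δ * (y : ℝ) ^ (-(δ / 16)) := by
        refine add_le_add (add_le_add (add_le_add (herr1.trans f1) (herr2.trans f2)) hmain2)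
          (herr3.trans f3)
    _ = _ := by ring

end nf

end Pool.Agent.Y770.EP
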