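import Pool.Agent.Y770.EP.Block

/-!
# All blocks, all points of a half-plane, many functions
-/

set_option autoImplicit false

open Finset Filter

namespace Pool.Agent.Y770.EP

/-- the sums of `f p p^(-s)` over the primes in `(y, x]` -/
noncomputable def SP (f : ℕ → ℂ) (s : ℂ) (y x : ℕ) : ℂ := ∑ p ∈ PR y x, f p * (p : ℂ) ^ (-s)

/-- the sums over the primes up to `T ^ c` are small in a half-plane -/
def Good (δ c : ℝ) (T : ℕ) (f : ℕ → ℂ) : Prop :=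
  ∀ s : ℂ, 1 / 2 + δ ≤ s.re → |s.im| ≤ (T : ℝ) ^ c → ∀ y x : ℕ, (Real.log T) ^ (4 / δ) ≤ y →
    (x : ℝ) ≤ (T : ℝ) ^ c → ‖SP f s y x‖ ≤ (y : ℝ) ^ (-(δ / 16))

lemma lip {p : ℕ} (hp : 2 ≤ p) {s t : ℂ} (ht : 0 ≤ t.re) {d : ℝ} (hd : ‖s - t‖ ≤ d)
    (hd1 : d * Real.log p ≤ 1) : ‖(p : ℂ) ^ (-s) - (p : ℂ) ^ (-t)‖ ≤ 2 * (d * Real.log p) := by
  have hp0 : (p : ℂ) ≠ 0 := by exact_mod_cast (by omega : p ≠ 0)
  have hp1 : (1 : ℝ) ≤ p := by exact_mod_cast (by omega : 1 ≤ p)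
  have hl0 : 0 ≤ Real.log p := Real.log_nonneg hp1
  have h1 : (p : ℂ) ^ (-s) = (p : ℂ) ^ (-t) * Complex.exp (-(s - t) * Real.log p) := by
    rw [show -s = -t + -(s - t) by ring, Complex.cpow_add _ _ hp0]
    congr 1
    rw [Complex.cpow_def_of_ne_zero hp0, ← Complex.natCast_log]
    congr 1
    ring
  have h2 : ‖-(s - t) * (Real.log p : ℂ)‖ ≤ d * Real.log p := by
    rw [norm_mul, norm_neg, Complex.norm_real, Real.norm_of_nonneg hl0]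
    exact mul_le_mul_of_nonneg_right hd hl0
  have h3 : ‖(p : ℂ) ^ (-t)‖ ≤ 1 := by
    rw [Complex.norm_natCast_cpow_of_pos (by omega), Complex.neg_re]
    exact Real.rpow_le_one_of_one_le_of_nonpos hp1 (by linarith)
  have h4 := Complex.norm_exp_sub_one_le (h2.trans hd1)
  calc ‖(p : ℂ) ^ (-s) - (p : ℂ) ^ (-t)‖ =
        ‖(p : ℂ) ^ (-t)‖ * ‖Complex.exp (-(s - t) * Real.log p) - 1‖ := by
        rw [h1, ← norm_mul]; congr 1; ring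
    _ ≤ 1 * (2 * ‖-(s - t) * (Real.log p : ℂ)‖) := by gcongr
    _ ≤ 2 * (d * Real.log p) := by linarith

lemma PR_empty {y x : ℕ} (h : x ≤ y) : PR y x = ∅ := by
  unfold PR
  rw [Finset.Ioc_eq_empty_of_le h, filter_empty]

lemma PR_card_le {y x : ℕ} (h : x ≤ 2 * y) : ((PR y x).card : ℝ) ≤ y := by
  have h1 : (PR y x).card ≤ y := by
    refine (card_filter_le _ _).trans ?_
    rw [Nat.card_Ioc]
    omega
  exact_mod_cast h1

lemma SP_split (f : ℕ → ℂ) (s : ℂ) {y z x : ℕ} (h1 : y ≤ z) (h2 : z ≤ x) :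
    SP f s y x = SP f s y z + SP f s z x := by
  unfold SP PR
  rw [← Finset.sum_union]
  · congr 1
    ext p
    simp only [mem_union, mem_filter, mem_Ioc]
    constructor
    · rintro ⟨⟨h3, h4⟩, h5⟩
      by_cases h6 : p ≤ z
      · exact Or.inl ⟨⟨h3, h6⟩, h5⟩
      · exact Or.inr ⟨⟨by omega, h4⟩, h5⟩
    · rintro (⟨⟨h3, h4⟩, h5⟩ | ⟨⟨h3, h4⟩, h5⟩)
      · exact ⟨⟨h3, by omega⟩, h5⟩
      · exact ⟨⟨by omega, h4⟩, h5⟩
  · rw [Finset.disjoint_left]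
    intro p hp hp'
    simp only [mem_filter, mem_Ioc] at hp hp'
    omega

/-- dyadic decomposition -/
lemma dyadic {f : ℕ → ℂ} {s : ℂ} {κ : ℝ} {y0 X : ℝ} (hy0 : 0 < y0)
    (hb : ∀ y x : ℕ, y0 ≤ y → (x : ℝ) ≤ X → x ≤ 2 * y → ‖SP f s y x‖ ≤ 2 * (y : ℝ) ^ (-κ)) :
    ∀ j : ℕ, ∀ y x : ℕ, y0 ≤ y → (x : ℝ) ≤ X → x ≤ 2 ^ j * y →
      ‖SP f s y x‖ ≤ 2 * (y : ℝ) ^ (-κ) * ∑ i ∈ range j, ((2 : ℝ) ^ (-κ)) ^ i := by
  intro j
  induction j with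
  | zero =>
    intro y x _ _ h
    rw [pow_zero, one_mul] at h
    unfold SP
    rw [PR_empty h]
    simp
  | succ j ih =>
    intro y x hy hx hxy
    have hr : (0 : ℝ) ≤ (2 : ℝ) ^ (-κ) := by positivity
    have hy0' : (0 : ℝ) < y := lt_of_lt_of_le hy0 hy
    have hyk : (0 : ℝ) ≤ (y : ℝ) ^ (-κ) := by positivity
    by_cases h : x ≤ 2 * y
    · refine (hb y x hy hx h).trans ?_
      rw [Finset.sum_range_succ']
      have h1 : (0 : ℝ) ≤ ∑ i ∈ range j, ((2 : ℝ) ^ (-κ)) ^ (i + 1) := Finset.sum_nonneg fun i _ => by positivity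
      have h2 : (0 : ℝ) ≤ 2 * (y : ℝ) ^ (-κ) := by positivity
      nlinarith
    · push Not at h
      rw [SP_split f s (by omega : y ≤ 2 * y) h.le]
      have h2y : (((2 * y : ℕ) : ℕ) : ℝ) ≤ X := le_trans (by exact_mod_cast h.le) hx
      have h3 := hb y (2 * y) hy h2y le_rfl
      have h4 := ih (2 * y) x (by push_cast; linarith) hx (by rw [pow_succ] at hxy; linarith)
      refine (norm_add_le _ _).trans ((add_le_add h3 h4).trans (le_of_eq ?_))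
      have h5 : (((2 * y : ℕ) : ℕ) : ℝ) ^ (-κ) = (2 : ℝ) ^ (-κ) * (y : ℝ) ^ (-κ) := by
        push_cast
        rw [Real.mul_rpow (by norm_num) hy0'.le]
      rw [h5, Finset.sum_range_succ', Finset.mul_sum, mul_add, Finset.mul_sum, pow_zero, mul_one, add_comm]
      congr 1
      refine Finset.sum_congr rfl fun i _ => ?_
      rw [pow_succ]
      ring

lemma dyadic' {f : ℕ → ℂ} {s : ℂ} {κ : ℝ} (hκ : 0 < κ) {y0 X : ℝ} (hy0 : 0 < y0)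
    (hb : ∀ y x : ℕ, y0 ≤ y → (x : ℝ) ≤ X → x ≤ 2 * y → ‖SP f s y x‖ ≤ 2 * (y : ℝ) ^ (-κ))
    {y x : ℕ} (hy : y0 ≤ y) (hx : (x : ℝ) ≤ X) :
    ‖SP f s y x‖ ≤ 2 / (1 - (2 : ℝ) ^ (-κ)) * (y : ℝ) ^ (-κ) := by
  have hy0' : (0 : ℝ) < y := lt_of_lt_of_le hy0 hy
  have hy1 : 1 ≤ y := by
    have : (0 : ℝ) < (y : ℕ) := hy0'
    exact_mod_cast this
  have h1 := dyadic hy0 hb x y x hy hx (by
    have := Nat.lt_two_pow_self (n := x)
    nlinarith)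
  have hr0 : (0 : ℝ) ≤ (2 : ℝ) ^ (-κ) := by positivity
  have hr1 : (2 : ℝ) ^ (-κ) < 1 := Real.rpow_lt_one_of_one_lt_of_neg (by norm_num) (by linarith)
  have h2 : ∑ i ∈ range x, ((2 : ℝ) ^ (-κ)) ^ i ≤ 1 / (1 - (2 : ℝ) ^ (-κ)) := by
    rw [one_div, ← tsum_geometric_of_lt_one hr0 hr1]
    exact (summable_geometric_of_lt_one hr0 hr1).sum_le_tsum _ fun i _ => by positivity
  have hyk : (0 : ℝ) ≤ 2 * (y : ℝ) ^ (-κ) := by positivity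
  calc ‖SP f s y x‖ ≤ 2 * (y : ℝ) ^ (-κ) * ∑ i ∈ range x, ((2 : ℝ) ^ (-κ)) ^ i := h1
    _ ≤ 2 * (y : ℝ) ^ (-κ) * (1 / (1 - (2 : ℝ) ^ (-κ))) := mul_le_mul_of_nonneg_left h2 hyk
    _ = _ := by ring

end Pool.Agent.Y770.EP
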