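import Pool.Agent.Y770.EP.Union

/-!
# All blocks, all points of a half-plane, many functions: the count
-/

set_option autoImplicit false

open Finset Filter

namespace Pool.Agent.Y770.EP

/-- the points of the grid -/
noncomputable def sg (δ : ℝ) (m : ℕ) (a : ℕ) (b : ℤ) : ℂ := ⟨1 / 2 + δ + a / m, b / m⟩

lemma grid_near {δ X : ℝ} {m : ℕ} (hm : 0 < m) (hX : X ≤ m) {s : ℂ} (h1 : 1 / 2 + δ ≤ s.re)
    (h2 : s.re ≤ 5 / 2) (hδ : 0 ≤ δ) (h3 : |s.im| ≤ X) :
    ∃ a ∈ range (2 * m + 1), ∃ b ∈ Icc (-((m : ℤ) ^ 2)) ((m : ℤ) ^ 2), ‖s - sg δ m a b‖ ≤ 2 / m := by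
  have hm0 : (0 : ℝ) < m := by exact_mod_cast hm
  have hu0 : 0 ≤ (s.re - (1 / 2 + δ)) * m := mul_nonneg (by linarith) hm0.le
  refine ⟨⌊(s.re - (1 / 2 + δ)) * m⌋₊, ?_, ⌊s.im * m⌋, ?_, ?_⟩
  · rw [mem_range, Nat.lt_succ_iff]
    have h4 : (s.re - (1 / 2 + δ)) * m ≤ ((2 * m : ℕ) : ℝ) := by
      push_cast
      nlinarith
    calc ⌊(s.re - (1 / 2 + δ)) * m⌋₊ ≤ ⌊((2 * m : ℕ) : ℝ)⌋₊ := Nat.floor_le_floor h4
      _ = 2 * m := Nat.floor_natCast _
  · rw [mem_Icc]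
    have h4 := abs_le.1 (h3.trans hX)
    constructor
    · rw [Int.le_floor]
      push_cast
      nlinarith
    · have h5 : s.im * m ≤ (((m : ℤ) ^ 2 : ℤ) : ℝ) := by
        push_cast
        nlinarith
      calc ⌊s.im * m⌋ ≤ ⌊(((m : ℤ) ^ 2 : ℤ) : ℝ)⌋ := Int.floor_le_floor h5
        _ = (m : ℤ) ^ 2 := Int.floor_intCast _
  · have h4 := Nat.floor_le hu0
    have h5 := Nat.lt_floor_add_one ((s.re - (1 / 2 + δ)) * m)
    have h6 := Int.floor_le (s.im * m)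
    have h7 := Int.lt_floor_add_one (s.im * m)
    refine (Complex.norm_le_abs_re_add_abs_im _).trans ?_
    have e1 : |(s - sg δ m ⌊(s.re - (1 / 2 + δ)) * m⌋₊ ⌊s.im * m⌋).re| ≤ 1 / m := by
      have : (s - sg δ m ⌊(s.re - (1 / 2 + δ)) * m⌋₊ ⌊s.im * m⌋).re =
          ((s.re - (1 / 2 + δ)) * m - ⌊(s.re - (1 / 2 + δ)) * m⌋₊) / m := by
        unfold sg
        rw [Complex.sub_re]
        dsimp only
        field_simp
        ring
      rw [this, abs_le]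
      constructor
      · rw [le_div_iff₀ hm0, neg_mul, div_mul_cancel₀ _ hm0.ne']
        linarith
      · exact div_le_div_of_nonneg_right (by linarith) hm0.le
    have e2 : |(s - sg δ m ⌊(s.re - (1 / 2 + δ)) * m⌋₊ ⌊s.im * m⌋).im| ≤ 1 / m := by
      have : (s - sg δ m ⌊(s.re - (1 / 2 + δ)) * m⌋₊ ⌊s.im * m⌋).im =
          (s.im * m - ⌊s.im * m⌋) / m := by
        unfold sg
        rw [Complex.sub_im]
        dsimp only
        field_simp
      rw [this, abs_le]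
      constructor
      · rw [le_div_iff₀ hm0, neg_mul, div_mul_cancel₀ _ hm0.ne']
        linarith
      · exact div_le_div_of_nonneg_right (by linarith) hm0.le
    refine (add_le_add e1 e2).trans (le_of_eq ?_)
    ring

lemma sg_re {δ : ℝ} (m a : ℕ) (b : ℤ) : 1 / 2 + δ ≤ (sg δ m a b).re := by
  unfold sg
  dsimp only
  have : (0 : ℝ) ≤ (a : ℝ) / m := by positivity
  linarith

lemma block_of_grid {δ M X : ℝ} (hδ : 0 < δ) (hδ1 : δ ≤ 1 / 2) (hM : 1 ≤ M) (hX : 4 * M ≤ X)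
    {m : ℕ} (hm : X ^ 4 ≤ m) {f : ℕ → ℂ} (hf : ∀ p : ℕ, p.Prime → ‖f p‖ ≤ M) {y x : ℕ}
    (hy : M ≤ y) (hx : (x : ℝ) ≤ X) (hxy : x ≤ 2 * y)
    (hg : ∀ a ∈ range (2 * m + 1), ∀ b ∈ Icc (-((m : ℤ) ^ 2)) ((m : ℤ) ^ 2),
      ‖SP f (sg δ m a b) y x‖ ≤ (y : ℝ) ^ (-(δ / 8))) {s : ℂ} (hs : 1 / 2 + δ ≤ s.re)
    (hs2 : |s.im| ≤ X) : ‖SP f s y x‖ ≤ 2 * (y : ℝ) ^ (-(δ / 8)) := by
  have hy1 : (1 : ℝ) ≤ y := hM.trans hy
  have hy0 : (0 : ℝ) < y := by linarith
  by_cases hyx : x ≤ y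
  · unfold SP
    rw [PR_empty hyx, Finset.sum_empty, norm_zero]
    positivity
  push Not at hyx
  have hyX : (y : ℝ) ≤ X := le_trans (by exact_mod_cast hyx.le) hx
  have hX4 : (4 : ℝ) ≤ X := by linarith
  have hX0 : 0 < X := by linarith
  have hcard := PR_card_le hxy
  by_cases hs3 : s.re ≤ 5 / 2
  · have hm0 : (0 : ℝ) < m := lt_of_lt_of_le (by positivity) hm
    have hXm : X ≤ m := by
      refine le_trans ?_ hm
      nlinarith [pow_pos hX0 3, pow_pos hX0 2]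
    obtain ⟨a, ha, b, hb, hab⟩ := grid_near (by exact_mod_cast hm0) hXm hs hs3 hδ.le hs2
    have h1 := hg a ha b hb
    have h2 : ‖SP f s y x - SP f (sg δ m a b) y x‖ ≤ y * (M * (4 / X ^ 3)) := by
      unfold SP
      rw [← Finset.sum_sub_distrib]
      refine (norm_sum_le _ _).trans ?_
      refine (Finset.sum_le_card_nsmul _ _ (M * (4 / X ^ 3)) fun p hp => ?_).trans ?_
      · obtain ⟨⟨hp1, hp2⟩, hpp⟩ := mem_PR.1 hp
        have hp1' : (1 : ℝ) ≤ p := by exact_mod_cast hpp.one_lt.le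
        have hlogp : Real.log p ≤ X := by
          have h3 := Real.log_le_sub_one_of_pos (by linarith : (0 : ℝ) < p)
          have h4 : (p : ℝ) ≤ x := by exact_mod_cast hp2
          linarith
        have hlogp0 : 0 ≤ Real.log p := Real.log_nonneg hp1'
        have hd : 2 / (m : ℝ) * Real.log p ≤ 2 / X ^ 3 := by
          calc 2 / (m : ℝ) * Real.log p ≤ 2 / X ^ 4 * X := by
                gcongr
            _ = 2 / X ^ 3 := by field_simp
        have hd1 : 2 / X ^ 3 ≤ 1 := by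
          rw [div_le_one (by positivity)]
          nlinarith [pow_pos hX0 2]
        have h5 := lip hpp.two_le (s := s) (t := sg δ m a b)
          (by have := sg_re (δ := δ) m a b; linarith) hab (hd.trans hd1)
        rw [← mul_sub, norm_mul]
        refine mul_le_mul (hf p hpp) (h5.trans ?_) (norm_nonneg _) (by linarith)
        calc 2 * (2 / (m : ℝ) * Real.log p) ≤ 2 * (2 / X ^ 3) := by linarith
          _ = 4 / X ^ 3 := by ring
      · rw [nsmul_eq_mul]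
        exact mul_le_mul_of_nonneg_right hcard (by positivity)
    have h3 : y * (M * (4 / X ^ 3)) ≤ (y : ℝ) ^ (-(δ / 8)) := by
      have h4 : y * (M * (4 / X ^ 3)) ≤ X ^ (-1 : ℝ) := by
        calc y * (M * (4 / X ^ 3)) ≤ X * (M * (4 / X ^ 3)) := by gcongr
          _ = (4 * M) / X ^ 2 := by field_simp
          _ ≤ X / X ^ 2 := by gcongr
          _ = X ^ (-1 : ℝ) := by rw [Real.rpow_neg_one]; field_simp
      refine h4.trans ?_
      calc X ^ (-1 : ℝ) ≤ X ^ (-(δ / 8)) :=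
            Real.rpow_le_rpow_of_exponent_le (by linarith) (by linarith)
        _ ≤ (y : ℝ) ^ (-(δ / 8)) := Real.rpow_le_rpow_of_nonpos hy0 hyX (by linarith)
    calc ‖SP f s y x‖ = ‖(SP f s y x - SP f (sg δ m a b) y x) + SP f (sg δ m a b) y x‖ := by
          rw [sub_add_cancel]
      _ ≤ _ := norm_add_le _ _
      _ ≤ (y : ℝ) ^ (-(δ / 8)) + (y : ℝ) ^ (-(δ / 8)) := add_le_add (h2.trans h3) h1
      _ = _ := by ring
  · push Not at hs3
    have h2 : ‖SP f s y x‖ ≤ y * (M * (y : ℝ) ^ (-(5 / 2) : ℝ)) := by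
      unfold SP
      refine (norm_sum_le _ _).trans ?_
      refine (Finset.sum_le_card_nsmul _ _ (M * (y : ℝ) ^ (-(5 / 2) : ℝ)) fun p hp => ?_).trans ?_
      · obtain ⟨⟨hp1, hp2⟩, hpp⟩ := mem_PR.1 hp
        have hyp : (y : ℝ) ≤ p := by exact_mod_cast hp1.le
        rw [norm_mul, Complex.norm_natCast_cpow_of_pos hpp.pos, Complex.neg_re]
        refine mul_le_mul (hf p hpp) ?_ (by positivity) (by linarith)
        calc (p : ℝ) ^ (-s.re) ≤ (p : ℝ) ^ (-(5 / 2) : ℝ) :=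
              Real.rpow_le_rpow_of_exponent_le (by linarith) (by linarith)
          _ ≤ (y : ℝ) ^ (-(5 / 2) : ℝ) := Real.rpow_le_rpow_of_nonpos hy0 hyp (by norm_num)
      · rw [nsmul_eq_mul]
        exact mul_le_mul_of_nonneg_right hcard (by positivity)
    refine h2.trans ?_
    have h3 : y * (M * (y : ℝ) ^ (-(5 / 2) : ℝ)) ≤ (y : ℝ) ^ (-(1 / 2) : ℝ) := by
      calc y * (M * (y : ℝ) ^ (-(5 / 2) : ℝ)) ≤ y * (y * (y : ℝ) ^ (-(5 / 2) : ℝ)) := by gcongr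
        _ = (y : ℝ) ^ (-(1 / 2) : ℝ) := by
          nth_rewrite 1 [← Real.rpow_one (y : ℝ)]
          nth_rewrite 2 [← Real.rpow_one (y : ℝ)]
          rw [← Real.rpow_add hy0, ← Real.rpow_add hy0]
          norm_num
    have h4 : (y : ℝ) ^ (-(1 / 2) : ℝ) ≤ (y : ℝ) ^ (-(δ / 8)) :=
      Real.rpow_le_rpow_of_exponent_le hy1 (by linarith)
    have h5 : (0 : ℝ) ≤ (y : ℝ) ^ (-(δ / 8)) := by positivity
    linarith

end Pool.Agent.Y770.EP
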